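import Pool.Agent.PGm.M40

/-! # Module FctD: the values of `D` at `r ^ 2`, `r ^ 3` -/

set_option linter.unusedSectionVars false

namespace PGn
open PGr Real
open scoped ENNReal Classical

variable {r t : ℝ}

private theorem yX_nn {x : ℝ} (h : GoodX x) : 0 ≤ yX gK gD gS x :=
  (yZ_bd h).1.trans (yZ_bd h).2

/-- `gS_bd`, `gD_step` -/
theorem fD_c (h : Base r t) : 1 ≤ gD (r ^ 2) ∧ gD (r ^ 2) ≤ 1 + r * (gD r - 1) ∧ 1 ≤ gD (r ^ 3) ∧
    gD (r ^ 3) ≤ 1 + r * (gD (r ^ 2) - 1) := by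
  have h1 := h.good
  have s2 := gS_bd (h1.pow (k := 2) (by norm_num))
  have s3 := gS_bd (h1.pow (k := 3) (by norm_num))
  have e2 := gD_step h1 (k := 1) le_rfl
  have e3 := gD_step h1 (k := 2) (by norm_num)
  rw [show (1 + 1 : ℕ) = 2 from rfl, pow_one] at e2
  rw [show (2 + 1 : ℕ) = 3 from rfl] at e3
  exact ⟨s2.1.trans s2.2, by linarith, s3.1.trans s3.2, by linarith⟩

private theorem geo (h : Base r t) :
    yX gK gD gS (r ^ 2) ≤ (∑' k : ℕ, yX gK gD gS ((r ^ 2) ^ (k + 1)) / ((k + 1 : ℕ) : ℝ)) ∧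
    (∑' k : ℕ, yX gK gD gS ((r ^ 2) ^ (k + 1)) / ((k + 1 : ℕ) : ℝ)) ≤
      yX gK gD gS (r ^ 2) / (1 - r ^ 2) := by
  have h1 := h.good
  have g2 : GoodX (r ^ 2) := h1.pow (k := 2) (by norm_num)
  have h3 := ser_geo (r := r) h.rpos h1.lt (Y := fun k => yX gK gD gS ((r ^ 2) ^ (k + 1)))
    (fun k => yX_nn (g2.pow (by omega))) (b := yX gK gD gS (r ^ 2)) (fun k => by
      have h4 := yX_pow h1 (k := 2) (j := 2 * k) (by norm_num)
      have h5 : (r ^ 2) ^ (k + 1) = r ^ (2 + 2 * k) := by rw [← pow_mul]; congr 1; ring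
      simp only [h5]
      linarith [mul_comm (r ^ (2 * k)) (yX gK gD gS (r ^ 2))])
    (h.sys (k := 2) (by norm_num)).sX
  have h6 : yX gK gD gS ((r ^ 2) ^ (0 + 1)) = yX gK gD gS (r ^ 2) := by rw [zero_add, pow_one]
  simp only [h6] at h3
  exact h3

/-- `D + 1 = 2 exp (∑ X (r^(2 j)) / j) ≥ 2 (1 + X (r^2))` -/
theorem fD_2l (h : Base r t) : 1 + 2 * yX gK gD gS (r ^ 2) ≤ gD (r ^ 2) := by
  have h1 := (h.sys (k := 2) (by norm_num)).eD
  have h2 := (geo h).1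
  have h3 := add_one_le_exp (∑' k : ℕ, yX gK gD gS ((r ^ 2) ^ (k + 1)) / ((k + 1 : ℕ) : ℝ))
  linarith

private theorem sumD (h : Base r t) {k : ℕ} (hk : 1 ≤ k) :
    log ((1 + gD (r ^ k)) / 2) =
      ∑' j : ℕ, yX gK gD gS ((r ^ k) ^ (j + 1)) / ((j + 1 : ℕ) : ℝ) := by
  have h1 := (h.sys hk).eD
  have h2 : (1 + gD (r ^ k)) / 2 =
      exp (∑' j : ℕ, yX gK gD gS ((r ^ k) ^ (j + 1)) / ((j + 1 : ℕ) : ℝ)) := by linarith
  rw [h2, log_exp]

private theorem split (h : Base r t) :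
    yX gK gD gS (r ^ 3) / 3 ≤ log ((1 + gD r) / 2) - yX gK gD gS r - yX gK gD gS (r ^ 2) / 2 ∧
    log ((1 + gD r) / 2) - yX gK gD gS r - yX gK gD gS (r ^ 2) / 2 ≤
      tl r (yX gK gD gS (r ^ 2)) := by
  have h1 := h.good
  have h0 := sumD h (k := 1) le_rfl
  have hs := (h.sys (k := 1) le_rfl).sX
  simp only [pow_one] at h0 hs
  have h3 := ser_split (r := r) h.rpos h1.lt (X := fun k => yX gK gD gS (r ^ (k + 1)))
    (fun k => yX_nn (h1.pow (by omega)))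
    (fun k => yX_step h1 (k := k + 1) (by omega)) hs
  simp only [zero_add, pow_one] at h3
  rw [h0]
  exact h3

/-- `ser_geo` with `b = X (r^2)` (`yX_pow`: `X (r^(2 + 2 j)) ≤ r^(2 j) X (r^2)`): the sum is at most `z = X (r^2) / (1 - r^2)`; `z < 1` (`X (r^2) ≤ r X r ≤ r D r`, and `X r ≤ log ((1 + D r) / 2) ≤ 1 / 10`);
`exp z ≤ 1 / (1 - z)` -/
theorem fD_2u (h : Base r t) : gD (r ^ 2) ≤ (1 + yX gK gD gS (r ^ 2) / (1 - r ^ 2)) /
    (1 - yX gK gD gS (r ^ 2) / (1 - r ^ 2)) := by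
  have h1 := h.good
  have hr := h.r1
  have hr0 := h.rpos
  have g2 : GoodX (r ^ 2) := h1.pow (k := 2) (by norm_num)
  have hX0 : 0 ≤ yX gK gD gS (r ^ 2) := yX_nn g2
  have hX1 : 0 ≤ yX gK gD gS r := yX_nn h1
  have h2 : yX gK gD gS (r ^ 2) ≤ r * yX gK gD gS r := by
    have := yX_step h1 (k := 1) le_rfl
    rwa [show (1 + 1 : ℕ) = 2 from rfl, pow_one] at this
  have hD0 : 1 ≤ gD r := (gS_bd h1).1.trans (gS_bd h1).2
  have h3 : yX gK gD gS r ≤ 1 / 10 := by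
    have h4 := (split h).1
    have h5 : 0 ≤ yX gK gD gS (r ^ 3) := yX_nn (h1.pow (k := 3) (by norm_num))
    have h6 : log ((1 + gD r) / 2) ≤ (1 + gD r) / 2 - 1 := log_le_sub_one_of_pos (by linarith)
    have h7 := h.D1
    linarith
  have hr2 : r ^ 2 ≤ 1 / 400 := by nlinarith
  have hz : yX gK gD gS (r ^ 2) / (1 - r ^ 2) ≤ 1 / 100 := by
    rw [div_le_iff₀ (by linarith)]
    nlinarith
  have hz0 : 0 ≤ yX gK gD gS (r ^ 2) / (1 - r ^ 2) := div_nonneg hX0 (by linarith)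
  set z := yX gK gD gS (r ^ 2) / (1 - r ^ 2) with hzdef
  have h8 := (h.sys (k := 2) (by norm_num)).eD
  have h9 := (geo h).2
  have h10 : exp (∑' k : ℕ, yX gK gD gS ((r ^ 2) ^ (k + 1)) / ((k + 1 : ℕ) : ℝ)) ≤ 1 / (1 - z) := by
    refine (exp_le_exp.2 h9).trans ?_
    rw [le_div_iff₀ (by linarith)]
    have h11 := add_one_le_exp (-z)
    have h12 : exp z * exp (-z) = 1 := by rw [← exp_add, add_neg_cancel, exp_zero]
    calc exp z * (1 - z) ≤ exp z * exp (-z) := mul_le_mul_of_nonneg_left (by linarith) (exp_pos _).le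
      _ = 1 := h12
  have h13 : (1 + z) / (1 - z) = 2 * (1 / (1 - z)) - 1 := by
    have : (1 : ℝ) - z ≠ 0 := by linarith
    field_simp
    ring
  rw [h13]
  linarith

/-- the first equation of `CSys` at `r` with `ser_split` (`yX_step`); `X (r^3) ≥ K D^2 / (1 + K D) ≥ K / (1 + K) ≥ r^3 / (1 + r^3)` at `r^3` (`rRg`, `rAv ≥ 0`) -/
theorem fD_e (h : Base r t) :
    r ^ 3 / (3 * (1 + r ^ 3)) ≤ log ((1 + gD r) / 2) - yX gK gD gS r - yX gK gD gS (r ^ 2) / 2 ∧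
    log ((1 + gD r) / 2) - yX gK gD gS r - yX gK gD gS (r ^ 2) / 2 ≤
      tl r (yX gK gD gS (r ^ 2)) := by
  refine ⟨?_, (split h).2⟩
  refine le_trans ?_ (split h).1
  have h1 := h.good
  have g3 : GoodX (r ^ 3) := h1.pow (k := 3) (by norm_num)
  have hK := le_gK g3
  have hD : 1 ≤ gD (r ^ 3) := (gS_bd g3).1.trans (gS_bd g3).2
  have h2 : gK (r ^ 3) * gD (r ^ 3) ^ 2 / (1 + gK (r ^ 3) * gD (r ^ 3)) ≤ yX gK gD gS (r ^ 3) := by
    unfold yX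
    have a1 : 0 ≤ rRg (gK (r ^ 3)) (gD (r ^ 3)) := ENNReal.toReal_nonneg
    have a2 : 0 ≤ rAv (gK (r ^ 3)) (gK ((r ^ 3) ^ 2)) (gD (r ^ 3)) (gS (r ^ 3))
      (gD ((r ^ 3) ^ 2)) := ENNReal.toReal_nonneg
    linarith
  have hr3 : 0 < r ^ 3 := pow_pos h.rpos 3
  set K := gK (r ^ 3) with hKd
  set D := gD (r ^ 3) with hDd
  set q := r ^ 3 with hq
  have hK0 : 0 < K := lt_of_lt_of_le hr3 hK
  have hKD : q ≤ K * D := by nlinarith
  have h3 : q / (1 + q) ≤ K * D ^ 2 / (1 + K * D) := by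
    rw [div_le_div_iff₀ (by linarith) (by positivity)]
    have e1 : K * D ≤ K * D ^ 2 := by nlinarith [mul_nonneg hK0.le (by linarith : (0:ℝ) ≤ D)]
    nlinarith
  have h4 : q / (3 * (1 + q)) = q / (1 + q) / 3 := by
    rw [div_div, mul_comm]
  rw [h4]
  linarith

end PGn
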