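import Pool.Agent.PGm.M40
import Pool.Agent.PGm.M42
import Pool.Agent.PGm.M43

/-! # Module FctP: `P` and `yR` -/

set_option linter.unusedSectionVars false

namespace PGn
open PGr Real
open scoped ENNReal Classical

variable {r t : ℝ}

/-- definition of `yP`, `ySS` -/
theorem fP_e (h : Base r t) : yP gK gD gS r =
    gK r * (gD r - yX gK gD gS r - gD r * yX gK gD gS r) +
      (gK r ^ 2 * gD r ^ 2 * (gD r / (1 + gK r * gD r)) + gK (r ^ 2) * gD (r ^ 2) *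
        (gS r - gD (r ^ 2) / (1 + gK (r ^ 2) * gD (r ^ 2)) * (gK r + gK (r ^ 2) * gS r))) / 2 +
      yR gK gD gS r := rfl

private theorem FctP_uv (h : Base r t) {y : ℝ} (h0 : 0 < y) (h1 : y < r) :
    ∃ u v, UV (gK y) (gD y) u v := by
  obtain ⟨ρ, hρ, -, hg, hcr⟩ := good_of_lt
  have e : r = ρ := (hcr r h.rpos).1 ⟨h.good, t, h.t0, h.t1, h.hK, h.hD⟩
  subst e
  obtain ⟨U, V, A, hU⟩ := exists_params hg h.r0 hcr
  exact ⟨U y, V y, (hU y h0 h1).1⟩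

private theorem FctP_lt1 (h : Base r t) : r < 1 := h.good.lt

/-- For orders `k ≥ 3` the value of `Qk k kv s ke E` (`Qk_value`) does not depend on `k`, `ke`: with `s = gK (r ^ k) ≤ 1 / 10`, `s = scr t'` (`scr_surj`), `E = gD (r ^ k) ≤ 1121 / 1000 < ecr t'` (`scr t' ≤ r K < 1 / 400` forces
`t' ≥ 8 / 10`), `E = Ef s v` (`exists_Ef`). -/
theorem fP_Qk (h : Base r t) {k j : ℕ} (hk : 3 ≤ k) (hj : 3 ≤ j) (ke ke' : ℝ) :
    rQk k (gK r) (gK (r ^ j)) ke (gD (r ^ j)) = rQk 3 (gK r) (gK (r ^ j)) ke' (gD (r ^ j)) := by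
  have hlt : r ^ j < r := by
    have := pow_lt_pow_right_of_lt_one₀ h.rpos (FctP_lt1 h) (show 1 < j by omega)
    simpa using this
  obtain ⟨u, v, huv⟩ := FctP_uv h (pow_pos h.rpos j) hlt
  have hs : gK (r ^ j) ≤ 1 / 10 :=
    ((g_mono h.good (pow_pos h.rpos j) hlt.le).1.trans h.K1).trans (by norm_num)
  rw [rQk_val huv hs hk (gK_nonneg r), rQk_val huv hs le_rfl (gK_nonneg r)]

private theorem FctP_pow (h : Base r t) {i j : ℕ} (hi : 1 ≤ i) (hij : i ≤ j) :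
    gK (r ^ j) ≤ gK (r ^ i) ∧ gD (r ^ j) ≤ gD (r ^ i) ∧ gS (r ^ j) ≤ gS (r ^ i) :=
  g_mono (h.good.pow hi) (pow_pos h.rpos j)
    (pow_le_pow_of_le_one h.rpos.le (FctP_lt1 h).le hij)

private theorem FctP_fin3 (h : Base r t) {j : ℕ} (hj : 3 ≤ j) :
    Qk 3 (ENNReal.ofReal (gK r)) (ENNReal.ofReal (gK (r ^ j))) (ENNReal.ofReal (gS r))
      (ENNReal.ofReal (gD (r ^ j))) ≠ ⊤ :=
  ne_top_of_le_ne_top (h.finQ (k := 3) (by norm_num))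
    (Qk_mono 3 le_rfl (ENNReal.ofReal_le_ofReal (FctP_pow h (by norm_num) hj).1) le_rfl
      (ENNReal.ofReal_le_ofReal (FctP_pow h (by norm_num) hj).2.1))

private theorem FctP_step (h : Base r t) {j : ℕ} (hj : 3 ≤ j) :
    rQk 3 (gK r) (gK (r ^ (j + 1))) (gS r) (gD (r ^ (j + 1))) ≤
      r * rQk 3 (gK r) (gK (r ^ j)) (gS r) (gD (r ^ j)) := by
  have h1 := FctP_lt1 h
  have hf := FctP_fin3 h hj
  have hx : r * gK (r ^ j) ≤ gK (r ^ j) := by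
    have := mul_le_mul_of_nonneg_right h1.le (gK_nonneg (r ^ j))
    linarith
  have hf' : Qk 3 (ENNReal.ofReal (gK r)) (ENNReal.ofReal (r * gK (r ^ j)))
      (ENNReal.ofReal (gS r)) (ENNReal.ofReal (gD (r ^ j))) ≠ ⊤ :=
    ne_top_of_le_ne_top hf (Qk_mono 3 le_rfl (ENNReal.ofReal_le_ofReal hx) le_rfl le_rfl)
  refine (rQk_mono 3 hf' le_rfl (gK_step h.good (by omega)) le_rfl
    (FctP_pow h (by omega) (by omega)).2.1).trans ?_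
  exact rQk_scal (by norm_num) h.rpos.le h1.le hf

/-- Definition of `yR` (`Base.q1`); `ser_Q` for `Q k = rQk (k + 2) K (gK (r ^ (k + 2))) S (gD (r ^ (k + 2)))`, summable by `CSys.sQ`; for `k ≥ 1`: `Q (k + 1) ≤ r Q k`: by `fP_Qk` both have order 3, and
`gK (r ^ (k + 3)) ≤ r gK (r ^ (k + 2))`, `gD (r ^ (k + 3)) ≤ gD (r ^ (k + 2))`, `rQk_mono`, `rQk_scal`, `Base.finQ`. -/
theorem fP_y (h : Base r t) :
    q1c t / 2 + rQk 3 (gK r) (gK (r ^ 3)) (gS r) (gD (r ^ 3)) / 3 +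
      (gK r * gD r * rAv (gK r) (gK (r ^ 2)) (gD r) (gS r) (gD (r ^ 2)) +
        rAc (gK r) (gK (r ^ 2)) (gD r) (gS r) (gD (r ^ 2))) / 4 ≤ yR gK gD gS r ∧
    yR gK gD gS r ≤ q1c t / 2 + rQk 2 (gK r) (gK (r ^ 2)) (gS r) (gD (r ^ 2)) / 4 +
      rQk 3 (gK r) (gK (r ^ 3)) (gS r) (gD (r ^ 3)) / 3 +
      rQk 3 (gK r) (gK (r ^ 3)) (gS r) (gD (r ^ 3)) * r / (2 * (1 - r)) +
      (gK r * gD r * rAv (gK r) (gK (r ^ 2)) (gD r) (gS r) (gD (r ^ 2)) +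
        rAc (gK r) (gK (r ^ 2)) (gD r) (gS r) (gD (r ^ 2))) / 4 := by
  have hS := (h.sys (k := 1) le_rfl).sQ
  rw [pow_one] at hS
  have hQ := ser_Q h.rpos (FctP_lt1 h)
    (Q := fun k => rQk (k + 2) (gK r) (gK (r ^ (k + 2))) (gS r) (gD (r ^ (k + 2))))
    (fun k => ENNReal.toReal_nonneg) (by
      intro k hk
      rw [fP_Qk h (k := k + 1 + 2) (j := k + 1 + 2) (by omega) (by omega) (gS r) (gS r),
        fP_Qk h (k := k + 2) (j := k + 2) (by omega) (by omega) (gS r) (gS r)]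
      exact FctP_step h (j := k + 2) (by omega)) hS
  unfold yR
  rw [h.q1.1]
  obtain ⟨q1, q2⟩ := hQ
  norm_num at q1 q2
  push_cast
  constructor
  · linarith
  · linarith

/-- Every term of `yR` at `r ^ 2` is at most `r ^ 2` times the term at `r`: `rQ1 K2 D2 ≤ rQ1 (r K) D ≤ r^2 rQ1 K D`; for `k ≥ 2`: `gK (r ^ (2 k)) ≤ r^k gK (r^k) ≤ r^2 gK (r^k)` and
`rQk k K2 (r^2 s) .. ≤ r^2 rQk k K s ..` (`rQk_scal`, `rQk_mono`, `Base.finQ`); `K2 D2 rAv(r^2) ≤ r^2 K D rAv(r)`, `rAc_scal` as in `fX_2u`.  Both sums over `k` converge (`CSys.sQ`). -/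
theorem fP_scal (h : Base r t) : yR gK gD gS (r ^ 2) ≤ r ^ 2 * yR gK gD gS r := by
  have h1 := FctP_lt1 h
  have hr := h.rpos
  have hr2 : r ^ 2 ≤ 1 := pow_le_one₀ hr.le h1.le
  have hr20 : 0 < r ^ 2 := pow_pos hr 2
  obtain ⟨m1, m2, m3⟩ := FctP_pow h (i := 1) (j := 2) le_rfl (by norm_num)
  rw [pow_one] at m1 m2 m3
  have k2 : gK (r ^ 2) ≤ r * gK r := by
    have := gK_step h.good (k := 1) le_rfl
    rwa [pow_one] at this
  have k4 : gK ((r ^ 2) ^ 2) ≤ r ^ 2 * gK (r ^ 2) := by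
    have := gK_pow h.good (k := 2) (j := 2) (by norm_num)
    rwa [← pow_mul]
  have d4 : gD ((r ^ 2) ^ 2) ≤ gD (r ^ 2) := by
    rw [← pow_mul]
    exact (FctP_pow h (by norm_num) (by norm_num)).2.1
  have hrK : r * gK r ≤ gK r := by
    have := mul_le_mul_of_nonneg_right h1.le (gK_nonneg r)
    linarith
  have hrK2 : r ^ 2 * gK (r ^ 2) ≤ gK (r ^ 2) := by
    have := mul_le_mul_of_nonneg_right hr2 (gK_nonneg (r ^ 2))
    linarith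
  -- the first term
  have a1 : rQ1 (gK (r ^ 2)) (gD (r ^ 2)) ≤ r ^ 2 * rQ1 (gK r) (gD r) := by
    have hf := h.q1.2.2
    have hf' : Q1 (ENNReal.ofReal (r * gK r)) (ENNReal.ofReal (gD r)) ≠ ⊤ :=
      ne_top_of_le_ne_top hf (Q1_mono (ENNReal.ofReal_le_ofReal hrK) le_rfl)
    refine le_trans ?_ (rQ1_scal hr.le h1.le hf)
    exact ENNReal.toReal_mono hf' (Q1_mono (ENNReal.ofReal_le_ofReal k2)
      (ENNReal.ofReal_le_ofReal m2))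
  -- the reflections
  obtain ⟨fv, fc⟩ := h.fin
  have a2 : rAv (gK (r ^ 2)) (gK ((r ^ 2) ^ 2)) (gD (r ^ 2)) (gS (r ^ 2)) (gD ((r ^ 2) ^ 2)) ≤
      r ^ 2 * rAv (gK r) (gK (r ^ 2)) (gD r) (gS r) (gD (r ^ 2)) := by
    have hf' := ne_top_of_le_ne_top fv (Av_mono (ENNReal.ofReal_le_ofReal hrK)
      (ENNReal.ofReal_le_ofReal hrK2) le_rfl le_rfl le_rfl)
    exact (rAv_mono hf' k2 k4 m2 m3 d4).trans (rAv_scal hr.le h1.le fv)
  have a3 : rAc (gK (r ^ 2)) (gK ((r ^ 2) ^ 2)) (gD (r ^ 2)) (gS (r ^ 2)) (gD ((r ^ 2) ^ 2)) ≤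
      r ^ 2 * rAc (gK r) (gK (r ^ 2)) (gD r) (gS r) (gD (r ^ 2)) := by
    have hf' := ne_top_of_le_ne_top fc (Ac_mono (ENNReal.ofReal_le_ofReal hrK)
      (ENNReal.ofReal_le_ofReal hrK2) le_rfl le_rfl le_rfl)
    exact (rAc_mono hf' k2 k4 m2 m3 d4).trans (rAc_scal hr.le h1.le fc)
  -- the rotations
  have s1 := (h.sys (k := 1) le_rfl).sQ
  rw [pow_one] at s1
  have s2 := (h.sys (k := 2) (by norm_num)).sQ
  have a4 : ∑' k : ℕ, ((k + 2).totient : ℝ) / (2 * ((k + 2 : ℕ) : ℝ)) *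
      rQk (k + 2) (gK (r ^ 2)) (gK ((r ^ 2) ^ (k + 2))) (gS (r ^ 2)) (gD ((r ^ 2) ^ (k + 2))) ≤
      r ^ 2 * ∑' k : ℕ, ((k + 2).totient : ℝ) / (2 * ((k + 2 : ℕ) : ℝ)) *
        rQk (k + 2) (gK r) (gK (r ^ (k + 2))) (gS r) (gD (r ^ (k + 2))) := by
    rw [← tsum_mul_left]
    refine s2.tsum_le_tsum (fun k => ?_) (s1.mul_left _)
    have hf := h.finQ (k := k + 2) (by omega)
    have hp : gK ((r ^ 2) ^ (k + 2)) ≤ r ^ 2 * gK (r ^ (k + 2)) := by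
      rw [← pow_mul]
      have e : 2 * (k + 2) = (k + 2) + (k + 2) := by ring
      rw [e]
      refine (gK_pow h.good (k := k + 2) (j := k + 2) (by omega)).trans ?_
      exact mul_le_mul_of_nonneg_right
        (pow_le_pow_of_le_one hr.le h1.le (by omega)) (gK_nonneg _)
    have hd : gD ((r ^ 2) ^ (k + 2)) ≤ gD (r ^ (k + 2)) := by
      rw [← pow_mul]
      exact (FctP_pow h (by omega) (by omega)).2.1
    have hx : r ^ 2 * gK (r ^ (k + 2)) ≤ gK (r ^ (k + 2)) := by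
      have := mul_le_mul_of_nonneg_right hr2 (gK_nonneg (r ^ (k + 2)))
      linarith
    have hf' := ne_top_of_le_ne_top hf (Qk_mono (k + 2) le_rfl (ENNReal.ofReal_le_ofReal hx)
      le_rfl le_rfl)
    have h3 := (rQk_mono (k + 2) hf' m1 hp m3 hd).trans
      (rQk_scal (j := k + 2) (by omega) hr20.le hr2 hf)
    have h4 : (0 : ℝ) ≤ ((k + 2).totient : ℝ) / (2 * ((k + 2 : ℕ) : ℝ)) := by positivity
    calc _ ≤ ((k + 2).totient : ℝ) / (2 * ((k + 2 : ℕ) : ℝ)) * (r ^ 2 *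
          rQk (k + 2) (gK r) (gK (r ^ (k + 2))) (gS r) (gD (r ^ (k + 2)))) :=
          mul_le_mul_of_nonneg_left h3 h4
      _ = _ := by ring
  have n1 : 0 ≤ rAv (gK (r ^ 2)) (gK ((r ^ 2) ^ 2)) (gD (r ^ 2)) (gS (r ^ 2))
      (gD ((r ^ 2) ^ 2)) := ENNReal.toReal_nonneg
  have n2 : 0 ≤ gD (r ^ 2) := ENNReal.toReal_nonneg
  have n3 : 0 ≤ gD r := ENNReal.toReal_nonneg
  have a5 : gK (r ^ 2) * gD (r ^ 2) * rAv (gK (r ^ 2)) (gK ((r ^ 2) ^ 2)) (gD (r ^ 2))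
      (gS (r ^ 2)) (gD ((r ^ 2) ^ 2)) ≤ r ^ 2 * (gK r * gD r *
      rAv (gK r) (gK (r ^ 2)) (gD r) (gS r) (gD (r ^ 2))) := by
    have h5 : gK (r ^ 2) * gD (r ^ 2) ≤ gK r * gD r :=
      mul_le_mul m1 m2 n2 (gK_nonneg r)
    calc _ ≤ gK r * gD r * (r ^ 2 * rAv (gK r) (gK (r ^ 2)) (gD r) (gS r) (gD (r ^ 2))) :=
          mul_le_mul h5 a2 n1 (mul_nonneg (gK_nonneg r) n3)
      _ = _ := by ring
  unfold yR
  linarith

/-- definition of `yP` at `r ^ 2`: `K^2 D^2 (D / (1 + K D)) ≤ K^2 D^3`, `K4 D4 (S2 - SS2) ≤ r^2 K2 D2 * D2` (`SS2 ≥ 0`, `S2 ≤ D2`, `D4 ≤ D2`), `fP_scal` -/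
theorem fP_2u (h : Base r t) : yP gK gD gS (r ^ 2) ≤
    gK (r ^ 2) * (gD (r ^ 2) - yX gK gD gS (r ^ 2) - gD (r ^ 2) * yX gK gD gS (r ^ 2)) +
      (gK (r ^ 2) ^ 2 * gD (r ^ 2) ^ 3 + r ^ 2 * gK (r ^ 2) * gD (r ^ 2) ^ 2) / 2 +
      r ^ 2 * yR gK gD gS r := by
  have h1 := FctP_lt1 h
  have hr := h.rpos
  have k4 : gK ((r ^ 2) ^ 2) ≤ r ^ 2 * gK (r ^ 2) := by
    have := gK_pow h.good (k := 2) (j := 2) (by norm_num)
    rwa [← pow_mul]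
  have d4 : gD ((r ^ 2) ^ 2) ≤ gD (r ^ 2) := by
    rw [← pow_mul]
    exact (FctP_pow h (by norm_num) (by norm_num)).2.1
  have n1 := gK_nonneg (r ^ 2)
  have n2 : 0 ≤ gD (r ^ 2) := ENNReal.toReal_nonneg
  have n3 := gK_nonneg ((r ^ 2) ^ 2)
  have n4 : 0 ≤ gD ((r ^ 2) ^ 2) := ENNReal.toReal_nonneg
  have n5 : 0 ≤ gS (r ^ 2) := ENNReal.toReal_nonneg
  have hs := (gS_bd (h.good.pow (k := 2) (by norm_num))).2
  have hR := fP_scal h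
  have hss : 0 ≤ ySS gK gD gS (r ^ 2) := by
    unfold ySS
    positivity
  have b1 : gK (r ^ 2) ^ 2 * gD (r ^ 2) ^ 2 * (gD (r ^ 2) / (1 + gK (r ^ 2) * gD (r ^ 2))) ≤
      gK (r ^ 2) ^ 2 * gD (r ^ 2) ^ 3 := by
    have : gD (r ^ 2) / (1 + gK (r ^ 2) * gD (r ^ 2)) ≤ gD (r ^ 2) :=
      div_le_self n2 (by nlinarith [mul_nonneg n1 n2])
    calc _ ≤ gK (r ^ 2) ^ 2 * gD (r ^ 2) ^ 2 * gD (r ^ 2) :=
          mul_le_mul_of_nonneg_left this (by positivity)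
      _ = _ := by ring
  have b2 : gK ((r ^ 2) ^ 2) * gD ((r ^ 2) ^ 2) * (gS (r ^ 2) - ySS gK gD gS (r ^ 2)) ≤
      r ^ 2 * gK (r ^ 2) * gD (r ^ 2) ^ 2 := by
    have c1 : gK ((r ^ 2) ^ 2) * gD ((r ^ 2) ^ 2) ≤ r ^ 2 * gK (r ^ 2) * gD (r ^ 2) :=
      mul_le_mul k4 d4 n4 (by positivity)
    calc _ ≤ gK ((r ^ 2) ^ 2) * gD ((r ^ 2) ^ 2) * gD (r ^ 2) :=
          mul_le_mul_of_nonneg_left (by linarith) (mul_nonneg n3 n4)
      _ ≤ r ^ 2 * gK (r ^ 2) * gD (r ^ 2) * gD (r ^ 2) := mul_le_mul_of_nonneg_right c1 n2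
      _ = _ := by ring
  unfold yP
  linarith

end PGn
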