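import Pool.Agent.PGm.M40

/-! # Module FctX: `X` at `r` and `r ^ 2`, the equations for `S` -/

set_option linter.unusedSectionVars false

namespace PGn
open PGr Real
open scoped ENNReal Classical

variable {r t : ℝ}

/-- definition of `yX`, `serc_eq`, `Base.rg` -/
theorem fX_e (h : Base r t) : yX gK gD gS r =
    serc t + (rgc t + rAv (gK r) (gK (r ^ 2)) (gD r) (gS r) (gD (r ^ 2))) / 2 := by
  have h1 := serc_eq h.t0 h.t1
  rw [← h.hK, ← h.hD] at h1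
  unfold yX
  rw [h1, h.rg.1]

/-- definition of `yX` at `r ^ 2`: `rRg`, `rAv` are nonnegative -/
theorem fX_2l (h : Base r t) : gK (r ^ 2) * gD (r ^ 2) ^ 2 / (1 + gK (r ^ 2) * gD (r ^ 2)) ≤
    yX gK gD gS (r ^ 2) := by
  unfold yX
  have a1 : 0 ≤ rRg (gK (r ^ 2)) (gD (r ^ 2)) := ENNReal.toReal_nonneg
  have a2 : 0 ≤ rAv (gK (r ^ 2)) (gK ((r ^ 2) ^ 2)) (gD (r ^ 2)) (gS (r ^ 2))
    (gD ((r ^ 2) ^ 2)) := ENNReal.toReal_nonneg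
  linarith

/-- Definition of `yX` at `r ^ 2`.  With `K2 ≤ r K` (`gK_step`), `K4 ≤ r^2 K2` (`gK_pow`), `D2 ≤ D`, `S2 ≤ S`, `D4 ≤ D2` (`g_mono`): `rRg K2 D2 ≤ rRg (r K) D ≤ r^2 rRg K D` (`rRg_scal`; monotonicity: `Rg_mono`) and
`rAv K2 K4 D2 S2 D4 ≤ rAv (r K) (r^2 K2) D S D2 ≤ r^2 rAv K K2 D S D2` (`rAv_mono`, `rAv_scal`, `Base.fin`) -/
theorem fX_2u (h : Base r t) : yX gK gD gS (r ^ 2) ≤
    gK (r ^ 2) * gD (r ^ 2) ^ 2 / (1 + gK (r ^ 2) * gD (r ^ 2)) +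
      r ^ 2 * (rgc t + rAv (gK r) (gK (r ^ 2)) (gD r) (gS r) (gD (r ^ 2))) / 2 := by
  have h1 := h.good
  have hr0 := h.rpos
  have hr1 : r ≤ 1 := h1.lt.le
  have g2 : GoodX (r ^ 2) := h1.pow (k := 2) (by norm_num)
  have hK2 : gK (r ^ 2) ≤ r * gK r := by
    have := gK_step h1 (k := 1) le_rfl
    rwa [show (1 + 1 : ℕ) = 2 from rfl, pow_one] at this
  have hK4 : gK ((r ^ 2) ^ 2) ≤ r ^ 2 * gK (r ^ 2) := by
    have := gK_pow h1 (k := 2) (j := 2) (by norm_num)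
    rwa [show (r ^ 2) ^ 2 = r ^ (2 + 2) by ring]
  have hr2 : r ^ 2 ≤ r := by nlinarith
  have hr4 : (r ^ 2) ^ 2 ≤ r ^ 2 := by nlinarith [pow_pos hr0 2]
  have m2 := g_mono h1 (y := r ^ 2) (pow_pos hr0 2) hr2
  have m4 := g_mono g2 (y := (r ^ 2) ^ 2) (pow_pos (pow_pos hr0 2) 2) hr4
  have b1 : rRg (gK (r ^ 2)) (gD (r ^ 2)) ≤ r ^ 2 * rgc t := by
    have e1 : rRg (gK (r ^ 2)) (gD (r ^ 2)) ≤ rRg (r * gK r) (gD r) := by
      unfold rRg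
      refine ENNReal.toReal_mono ?_ (Rg_mono (ENNReal.ofReal_le_ofReal hK2)
        (ENNReal.ofReal_le_ofReal m2.2.1))
      refine ne_top_of_le_ne_top h.rg.2.2 (Rg_mono (ENNReal.ofReal_le_ofReal ?_) le_rfl)
      nlinarith [gK_nonneg r]
    have e2 := rRg_scal hr0.le hr1 h.rg.2.2
    rw [h.rg.1] at e2
    exact e1.trans e2
  have hf := h.fin.1
  have b2 : rAv (gK (r ^ 2)) (gK ((r ^ 2) ^ 2)) (gD (r ^ 2)) (gS (r ^ 2)) (gD ((r ^ 2) ^ 2)) ≤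
      r ^ 2 * rAv (gK r) (gK (r ^ 2)) (gD r) (gS r) (gD (r ^ 2)) := by
    refine le_trans (rAv_mono ?_ hK2 hK4 m2.2.1 m2.2.2 m4.2.1) (rAv_scal hr0.le hr1 hf)
    refine ne_top_of_le_ne_top hf (Av_mono (ENNReal.ofReal_le_ofReal ?_)
      (ENNReal.ofReal_le_ofReal ?_) le_rfl le_rfl le_rfl)
    · nlinarith [gK_nonneg r]
    · nlinarith [gK_nonneg (r ^ 2)]
  have h3 : yX gK gD gS (r ^ 2) = gK (r ^ 2) * gD (r ^ 2) ^ 2 / (1 + gK (r ^ 2) * gD (r ^ 2)) +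
      (rRg (gK (r ^ 2)) (gD (r ^ 2)) + rAv (gK (r ^ 2)) (gK ((r ^ 2) ^ 2)) (gD (r ^ 2))
        (gS (r ^ 2)) (gD ((r ^ 2) ^ 2))) / 2 := rfl
  rw [h3]
  nlinarith

/-- definition of `yZ`, `ySS` -/
theorem fX_Z (h : Base r t) : yZ gK gD gS r =
    gD (r ^ 2) / (1 + gK (r ^ 2) * gD (r ^ 2)) * (gK r + gK (r ^ 2) * gS r) +
      (rApi (gK r) (gK (r ^ 2)) (gD r) (gS r) (gD (r ^ 2)) +
        rAh (gK r) (gK (r ^ 2)) (gD r) (gS r) (gD (r ^ 2))) / 2 := by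
  unfold yZ ySS
  rfl

/-- the second equation of `CSys` at `r` with `ser_split'` for `X k = yX (r ^ (k + 1))`, `Z k = yZ (r ^ (k + 1))` (`yZ_bd`) -/
theorem fX_S (h : Base r t) :
    yZ gK gD gS r + yX gK gD gS (r ^ 2) / 2 ≤ log ((1 + gS r) / 2) ∧
    log ((1 + gS r) / 2) ≤ yZ gK gD gS r + yX gK gD gS (r ^ 2) / 2 +
      tl r (yX gK gD gS (r ^ 2)) := by
  have h1 := h.good
  have hs := (h.sys (k := 1) le_rfl).sZ
  have he := (h.sys (k := 1) le_rfl).eS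
  simp only [pow_one] at hs he
  have h2 : (1 + gS r) / 2 = exp (∑' k : ℕ, (if Even k then yZ gK gD gS (r ^ (k + 1)) else
    yX gK gD gS (r ^ (k + 1))) / ((k + 1 : ℕ) : ℝ)) := by linarith
  rw [h2, log_exp]
  have h3 := ser_split' (r := r) h.rpos h1.lt (X := fun k => yX gK gD gS (r ^ (k + 1)))
    (Z := fun k => yZ gK gD gS (r ^ (k + 1)))
    (fun k => (yZ_bd (h1.pow (k := k + 1) (by omega))).1)
    (fun k => (yZ_bd (h1.pow (k := k + 1) (by omega))).2)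
    (fun k => yX_step h1 (k := k + 1) (by omega)) hs
  simp only [zero_add, pow_one] at h3
  constructor
  · linarith [h3.1]
  · linarith [h3.2]

end PGn
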