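import Pool.Agent.PGm.M34
import Pool.Agent.PGc.Crit

/-! # Module Q1B: bounds for `q1c` -/

set_option linter.unusedSectionVars false

namespace PGn
open PGr Real

private noncomputable def Q1B_pA (τ : ℝ) : ℝ := (843323295439 / 10000000000000) + (-1885239383907 / 10000000000000) * τ + (-408083339269 / 2500000000000) * τ ^ 2 + (1100129341291 / 5000000000000) * τ ^ 3
private noncomputable def Q1B_pB (τ : ℝ) : ℝ := (14980706503 / 2500000000000) + (-72607425841 / 1250000000000) * τ + (1114633690369 / 5000000000000) * τ ^ 2 + (-4656763479097 / 10000000000000) * τ ^ 3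
private noncomputable def Q1B_pC (τ : ℝ) : ℝ := (-902714153123 / 10000000000000) + (2462566047709 / 10000000000000) * τ + (-296097930961 / 5000000000000) * τ ^ 2 + (308520658187 / 1250000000000) * τ ^ 3

private theorem Q1B_pow {τ : ℝ} (h : |τ| ≤ 245 / 100000) (k : ℕ) :
    -(245 / 100000) ^ k ≤ τ ^ k ∧ τ ^ k ≤ (245 / 100000) ^ k := by
  rw [← abs_le, abs_pow]
  exact pow_le_pow_left₀ (abs_nonneg _) h k

private theorem Q1B_A {τ t : ℝ} (h : |τ| ≤ 245 / 100000) (ht : t = 62875 / 100000 + τ) :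
    Q1B_pA τ - 1 / 1000000000 ≤ (6 * (t * (1 - t)) * (2 + 5 * t + t ^ 2) ^ 2 + 2 * (t * (1 - t)) ^ 3) / (3 * (2 + 5 * t + t ^ 2) ^ 3) ∧ (6 * (t * (1 - t)) * (2 + 5 * t + t ^ 2) ^ 2 + 2 * (t * (1 - t)) ^ 3) / (3 * (2 + 5 * t + t ^ 2) ^ 3) ≤ Q1B_pA τ + 1 / 1000000000 := by
  have ht0 : 0 < t := by
    have := (abs_le.1 h).1
    rw [ht]; linarith
  have hD : 0 < 3 * (2 + 5 * t + t ^ 2) ^ 3 := by positivity
  obtain ⟨h1, g1⟩ := Q1B_pow h 1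
  obtain ⟨h2, g2⟩ := Q1B_pow h 2
  obtain ⟨h3, g3⟩ := Q1B_pow h 3
  obtain ⟨h4, g4⟩ := Q1B_pow h 4
  obtain ⟨h5, g5⟩ := Q1B_pow h 5
  obtain ⟨h6, g6⟩ := Q1B_pow h 6
  obtain ⟨h7, g7⟩ := Q1B_pow h 7
  obtain ⟨h8, g8⟩ := Q1B_pow h 8
  obtain ⟨h9, g9⟩ := Q1B_pow h 9
  norm_num only at h1 g1 h2 g2 h3 g3 h4 g4 h5 g5 h6 g6 h7 g7 h8 g8 h9 g9
  rw [le_div_iff₀ hD, div_le_iff₀ hD]
  subst ht
  unfold Q1B_pA
  constructor <;> linarith [h1, g1, h2, g2, h3, g3, h4, g4, h5, g5, h6, g6, h7, g7, h8, g8, h9, g9]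

private theorem Q1B_B {τ t : ℝ} (h : |τ| ≤ 245 / 100000) (ht : t = 62875 / 100000 + τ) :
    Q1B_pB τ - 1 / 1000000000 ≤ ((1 + 3 * t) * (1 - t) ^ 3 * (6 * (2 + 4 * t + t ^ 2) ^ 2 + 2 * t ^ 4)) / (48 * t * (2 + 4 * t + t ^ 2) ^ 3) ∧ ((1 + 3 * t) * (1 - t) ^ 3 * (6 * (2 + 4 * t + t ^ 2) ^ 2 + 2 * t ^ 4)) / (48 * t * (2 + 4 * t + t ^ 2) ^ 3) ≤ Q1B_pB τ + 1 / 1000000000 := by
  have ht0 : 0 < t := by
    have := (abs_le.1 h).1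
    rw [ht]; linarith
  have hD : 0 < 48 * t * (2 + 4 * t + t ^ 2) ^ 3 := by positivity
  obtain ⟨h1, g1⟩ := Q1B_pow h 1
  obtain ⟨h2, g2⟩ := Q1B_pow h 2
  obtain ⟨h3, g3⟩ := Q1B_pow h 3
  obtain ⟨h4, g4⟩ := Q1B_pow h 4
  obtain ⟨h5, g5⟩ := Q1B_pow h 5
  obtain ⟨h6, g6⟩ := Q1B_pow h 6
  obtain ⟨h7, g7⟩ := Q1B_pow h 7
  obtain ⟨h8, g8⟩ := Q1B_pow h 8
  obtain ⟨h9, g9⟩ := Q1B_pow h 9
  obtain ⟨h10, g10⟩ := Q1B_pow h 10
  norm_num only at h1 g1 h2 g2 h3 g3 h4 g4 h5 g5 h6 g6 h7 g7 h8 g8 h9 g9 h10 g10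
  rw [le_div_iff₀ hD, div_le_iff₀ hD]
  subst ht
  unfold Q1B_pB
  constructor <;> linarith [h1, g1, h2, g2, h3, g3, h4, g4, h5, g5, h6, g6, h7, g7, h8, g8, h9, g9, h10, g10]

private noncomputable def Q1B_C (t : ℝ) : ℝ :=
  (2 + 6 * t ^ 2) / (1 + 3 * t) - 1 / 2 - (1 + 3 * t ^ 2) / (4 * t) -
        8 * t ^ 3 / (1 + 3 * t) ^ 2 - (1 - t) ^ 3 / (1 + 3 * t) +
        scr t * (3 * t ^ 2 / (1 + 2 * t)) +
        scr t * (3 * t ^ 2 / (1 + 2 * t)) * ecr t * (1 - ecr t) / 2 + scr t * ecr t ^ 2 / 2 -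
        scr t * ecr t * (16 * t ^ 3 / (1 + 3 * t) ^ 2) -
        scr t * ecr t ^ 2 * (3 * (1 - t) ^ 2 / ((3 + t) * (1 + 3 * t))) / 2

private theorem Q1B_C_eq {t : ℝ} (h0 : 0 < t) (h1 : t < 1) :
    Q1B_C t = ((-6) + (-38) * t + (-123) * t ^ 2 + (-289) * t ^ 3 + (-165) * t ^ 4 + 379 * t ^ 5 + 242 * t ^ 6 + 0 * t ^ 7) / (32 * t * (1 + 2 * t) * (1 + 3 * t) ^ 2 * (3 + t)) := by
  have h2 : (1 - t) ≠ 0 := by linarith
  have h3 : (1 + 3 * t) ≠ 0 := by positivity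
  have h4 : (1 + 2 * t) ≠ 0 := by positivity
  have h5 : (3 + t) ≠ 0 := by positivity
  unfold Q1B_C scr ecr
  field_simp
  ring

private theorem Q1B_C_bd {τ t : ℝ} (h : |τ| ≤ 245 / 100000) (ht : t = 62875 / 100000 + τ) :
    Q1B_pC τ - 1 / 1000000000 ≤ ((-6) + (-38) * t + (-123) * t ^ 2 + (-289) * t ^ 3 + (-165) * t ^ 4 + 379 * t ^ 5 + 242 * t ^ 6 + 0 * t ^ 7) / (32 * t * (1 + 2 * t) * (1 + 3 * t) ^ 2 * (3 + t)) ∧ ((-6) + (-38) * t + (-123) * t ^ 2 + (-289) * t ^ 3 + (-165) * t ^ 4 + 379 * t ^ 5 + 242 * t ^ 6 + 0 * t ^ 7) / (32 * t * (1 + 2 * t) * (1 + 3 * t) ^ 2 * (3 + t)) ≤ Q1B_pC τ + 1 / 1000000000 := by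
  have ht0 : 0 < t := by
    have := (abs_le.1 h).1
    rw [ht]; linarith
  have hD : 0 < 32 * t * (1 + 2 * t) * (1 + 3 * t) ^ 2 * (3 + t) := by positivity
  obtain ⟨h1, g1⟩ := Q1B_pow h 1
  obtain ⟨h2, g2⟩ := Q1B_pow h 2
  obtain ⟨h3, g3⟩ := Q1B_pow h 3
  obtain ⟨h4, g4⟩ := Q1B_pow h 4
  obtain ⟨h5, g5⟩ := Q1B_pow h 5
  obtain ⟨h6, g6⟩ := Q1B_pow h 6
  obtain ⟨h7, g7⟩ := Q1B_pow h 7
  obtain ⟨h8, g8⟩ := Q1B_pow h 8
  obtain ⟨h9, g9⟩ := Q1B_pow h 9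
  norm_num only at h1 g1 h2 g2 h3 g3 h4 g4 h5 g5 h6 g6 h7 g7 h8 g8 h9 g9
  rw [le_div_iff₀ hD, div_le_iff₀ hD]
  subst ht
  unfold Q1B_pC
  constructor <;> linarith [h1, g1, h2, g2, h3, g3, h4, g4, h5, g5, h6, g6, h7, g7, h8, g8, h9, g9]

private theorem Q1B_log {z : ℝ} (h0 : 0 ≤ z) (h1 : z < 1) :
    2 * (z + z ^ 3 / 3) ≤ log ((1 + z) / (1 - z)) ∧
      log ((1 + z) / (1 - z)) ≤ 2 * (z + z ^ 3 / 3 + z ^ 5 / 5 + z ^ 7 / (1 - z ^ 2)) := by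
  have e1 := Real.sum_range_le_log_div h0 h1 2
  have e2 := Real.log_div_le_sum_range_add h0 h1 3
  simp only [Finset.sum_range_succ, Finset.sum_range_zero] at e1 e2
  norm_num at e1 e2
  constructor <;> linarith

private theorem Q1B_z {t : ℝ} (h0 : 6263 / 10000 ≤ t) (h1 : t ≤ 6312 / 10000) :
    0 ≤ t * (1 - t) / (2 + 5 * t + t ^ 2) ∧ t * (1 - t) / (2 + 5 * t + t ^ 2) ≤ 424 / 10000 := by
  have hD : 0 < 2 + 5 * t + t ^ 2 := by positivity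
  constructor
  · exact div_nonneg (mul_nonneg (by linarith) (by linarith)) hD.le
  · rw [div_le_iff₀ hD]
    nlinarith

private theorem Q1B_w {t : ℝ} (h0 : 6263 / 10000 ≤ t) (h1 : t ≤ 6312 / 10000) :
    0 ≤ t ^ 2 / (2 + 4 * t + t ^ 2) ∧ t ^ 2 / (2 + 4 * t + t ^ 2) ≤ 81 / 1000 := by
  have hD : 0 < 2 + 4 * t + t ^ 2 := by positivity
  constructor
  · positivity
  · rw [div_le_iff₀ hD]
    nlinarith

private theorem Q1B_s {t : ℝ} (h0 : 6263 / 10000 ≤ t) (h1 : t ≤ 6312 / 10000) :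
    0 ≤ scr t ∧ scr t ≤ 385 / 10000 := by
  have h2 : 0 < 1 - t := by linarith
  have h3 : 0 < t := by linarith
  unfold scr
  constructor
  · positivity
  · rw [div_le_iff₀ (by positivity)]
    have e1 : (1 - t) ^ 3 ≤ (3737 / 10000) ^ 3 := pow_le_pow_left₀ h2.le (by linarith) 3
    have e2 : (6263 / 10000 : ℝ) ^ 3 ≤ t ^ 3 := pow_le_pow_left₀ (by norm_num) h0 3
    have e3 : (1 + 3 * t) * (1 - t) ^ 3 ≤ (1 + 3 * (6312 / 10000)) * (3737 / 10000) ^ 3 :=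
      mul_le_mul (by linarith) e1 (by positivity) (by norm_num)
    norm_num at e2 e3
    norm_num
    linarith

private theorem Q1B_tail1 {z : ℝ} (h0 : 0 ≤ z) (h1 : z ≤ 424 / 10000) :
    2 * (z ^ 5 / 5 + z ^ 7 / (1 - z ^ 2)) ≤ 56 / 1000000000 := by
  have e2 : z ^ 2 ≤ (424 / 10000) ^ 2 := pow_le_pow_left₀ h0 h1 2
  have e5 : z ^ 5 ≤ (424 / 10000) ^ 5 := pow_le_pow_left₀ h0 h1 5
  have e7 : z ^ 7 ≤ (424 / 10000) ^ 7 := pow_le_pow_left₀ h0 h1 7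
  have h3 : 0 < 1 - z ^ 2 := by
    norm_num at e2
    linarith
  have e8 : z ^ 7 / (1 - z ^ 2) ≤ 2 * (424 / 10000) ^ 7 := by
    rw [div_le_iff₀ h3]
    have : (1 : ℝ) / 2 ≤ 1 - z ^ 2 := by
      norm_num at e2
      linarith
    have h4 : (2 : ℝ) * (424 / 10000) ^ 7 * (1 / 2) ≤ 2 * (424 / 10000) ^ 7 * (1 - z ^ 2) :=
      mul_le_mul_of_nonneg_left this (by norm_num)
    linarith
  norm_num at e5 e8
  linarith

private theorem Q1B_tail2 {z : ℝ} (h0 : 0 ≤ z) (h1 : z ≤ 81 / 1000) :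
    2 * (z ^ 5 / 5 + z ^ 7 / (1 - z ^ 2)) ≤ 15 / 10000000 := by
  have e2 : z ^ 2 ≤ (81 / 1000) ^ 2 := pow_le_pow_left₀ h0 h1 2
  have e5 : z ^ 5 ≤ (81 / 1000) ^ 5 := pow_le_pow_left₀ h0 h1 5
  have e7 : z ^ 7 ≤ (81 / 1000) ^ 7 := pow_le_pow_left₀ h0 h1 7
  have h3 : 0 < 1 - z ^ 2 := by
    norm_num at e2
    linarith
  have e8 : z ^ 7 / (1 - z ^ 2) ≤ 2 * (81 / 1000) ^ 7 := by
    rw [div_le_iff₀ h3]
    have : (1 : ℝ) / 2 ≤ 1 - z ^ 2 := by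
      norm_num at e2
      linarith
    have h4 : (2 : ℝ) * (81 / 1000) ^ 7 * (1 / 2) ≤ 2 * (81 / 1000) ^ 7 * (1 - z ^ 2) :=
      mul_le_mul_of_nonneg_left this (by norm_num)
    linarith
  norm_num at e5 e8
  linarith

/-- With `s = scr t`, `E = ecr t`, `u = (1 - t) / (1 + 3 t)`, `v = t`: `1 - u v = (1 + t)^2 / (1 + 3 t)`, `(1 - u v)(1 - v) / (1 - v - u v) = (1 + t)^2 / (1 + 2 t)`, `m = (2 + 6 t^2) / (1 + 3 t)`, `m / (2 (1 - u)) = (1 + 3 t^2) / (4 t)`,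
`y = 16 t^3 / (1 + 3 t)^2`, `s y = (1 - t)^3 / (1 + 3 t)`, `s E = 3 (1 - t)^2 / (16 t)`, `w = 3 (1 - t)^2 / ((3 + t)(1 + 3 t))`, `a = 3 t^2 / (1 + 2 t)`. -/
theorem q1c_eq {t : ℝ} (h0 : 0 < t) (h1 : t < 1) :
    q1c t = scr t * log ((1 + t) ^ 2 / (1 + 2 * t)) - log ((1 + t) ^ 2 / (1 + 3 * t)) +
      ((2 + 6 * t ^ 2) / (1 + 3 * t) - 1 / 2 - (1 + 3 * t ^ 2) / (4 * t) -
        8 * t ^ 3 / (1 + 3 * t) ^ 2 - (1 - t) ^ 3 / (1 + 3 * t) +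
        scr t * (3 * t ^ 2 / (1 + 2 * t)) +
        scr t * (3 * t ^ 2 / (1 + 2 * t)) * ecr t * (1 - ecr t) / 2 + scr t * ecr t ^ 2 / 2 -
        scr t * ecr t * (16 * t ^ 3 / (1 + 3 * t) ^ 2) -
        scr t * ecr t ^ 2 * (3 * (1 - t) ^ 2 / ((3 + t) * (1 + 3 * t))) / 2) := by
  have h2 : 0 < 1 - t := by linarith
  have h2' : (1 - t) ≠ 0 := h2.ne'
  have h3 : (1 + 3 * t) ≠ 0 := by positivity
  have h4 : (1 + 2 * t) ≠ 0 := by positivity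
  have h5 : (3 + t) ≠ 0 := by positivity
  have h0' : t ≠ 0 := h0.ne'
  have hu : (1 - t) / (1 + 3 * t) * t = 1 - (1 + t) ^ 2 / (1 + 3 * t) := by
    field_simp
    ring
  have hE : t * (1 - (1 - t) / (1 + 3 * t) - t) / (1 - t) ^ 2 = ecr t := by
    unfold ecr
    field_simp
    ring
  have hy : t * (1 - (1 - t) / (1 + 3 * t)) ^ 2 = 16 * t ^ 3 / (1 + 3 * t) ^ 2 := by
    field_simp
    ring
  have hm : 1 + (1 - t) / (1 + 3 * t) + t - 3 * ((1 - t) / (1 + 3 * t)) * t =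
      (2 + 6 * t ^ 2) / (1 + 3 * t) := by
    field_simp
    ring
  have ha : ecr t / (1 + ecr t) = 3 * t ^ 2 / (1 + 2 * t) := by
    have h6 : 1 + ecr t = (1 + 2 * t) / ((1 - t) * (1 + 3 * t)) := by
      unfold ecr
      field_simp
      ring
    rw [h6]
    unfold ecr
    field_simp
  have hw : scr t * ecr t / (1 + scr t * ecr t) = 3 * (1 - t) ^ 2 / ((3 + t) * (1 + 3 * t)) := by
    have h6 : scr t * ecr t = 3 * (1 - t) ^ 2 / (16 * t) := by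
      unfold scr ecr
      field_simp
    have h7 : 1 + scr t * ecr t = (3 + t) * (1 + 3 * t) / (16 * t) := by
      rw [h6]
      field_simp
      ring
    rw [h7, h6]
    field_simp
  have hl1 : (1 + t) ^ 2 / (1 + 3 * t) * (1 - t) / (1 - t - (1 - t) / (1 + 3 * t) * t) =
      (1 + t) ^ 2 / (1 + 2 * t) := by
    have h6 : 1 - t - (1 - t) / (1 + 3 * t) * t = (1 - t) * (1 + 2 * t) / (1 + 3 * t) := by
      field_simp
      ring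
    rw [h6]
    field_simp
  have hl2 : 1 - (1 - t) / (1 + 3 * t) * t = (1 + t) ^ 2 / (1 + 3 * t) := by
    rw [hu]; ring
  have hmu : (2 + 6 * t ^ 2) / (1 + 3 * t) / (2 * (1 - (1 - t) / (1 + 3 * t))) =
      (1 + 3 * t ^ 2) / (4 * t) := by
    have h6 : 1 - (1 - t) / (1 + 3 * t) = 4 * t / (1 + 3 * t) := by
      field_simp
      ring
    rw [h6]
    field_simp
    ring
  have hsy : scr t * (16 * t ^ 3 / (1 + 3 * t) ^ 2) = (1 - t) ^ 3 / (1 + 3 * t) := by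
    unfold scr
    field_simp
  unfold q1c q1F
  simp only [hE, hy, hm, ha, hw, hl1, hl2, hmu, hsy]
  ring

/-- The values on `[0.6263, 0.6312]` decrease from `0.00005417` to `0.00005243` (derivative about `-0.00035`). -/
theorem q1c_bd {t : ℝ} (h0 : 6263 / 10000 ≤ t) (h1 : t ≤ 6312 / 10000) :
    52 / 1000000 ≤ q1c t ∧ q1c t ≤ 545 / 10000000 := by
  have hτ : |t - 62875 / 100000| ≤ 245 / 100000 := by
    rw [abs_le]
    constructor <;> linarith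
  have ht : t = 62875 / 100000 + (t - 62875 / 100000) := by ring
  have ht0 : 0 < t := by linarith
  have ht1 : t < 1 := by linarith
  obtain ⟨a1, a2⟩ := Q1B_A hτ ht
  obtain ⟨b1, b2⟩ := Q1B_B hτ ht
  obtain ⟨c1, c2⟩ := Q1B_C_bd hτ ht
  rw [← Q1B_C_eq ht0 ht1] at c1 c2
  obtain ⟨z0, z1⟩ := Q1B_z h0 h1
  obtain ⟨w0, w1⟩ := Q1B_w h0 h1
  obtain ⟨s0, s1⟩ := Q1B_s h0 h1
  have hD5 : 2 + 5 * t + t ^ 2 ≠ 0 := by positivity
  have hD4 : 2 + 4 * t + t ^ 2 ≠ 0 := by positivity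
  have eL1 : (1 + t) ^ 2 / (1 + 2 * t) = (1 + t ^ 2 / (2 + 4 * t + t ^ 2)) / (1 - t ^ 2 / (2 + 4 * t + t ^ 2)) := by
    have h2 : 1 + t ^ 2 / (2 + 4 * t + t ^ 2) = 2 * (1 + t) ^ 2 / (2 + 4 * t + t ^ 2) := by
      field_simp
      ring
    have h3 : 1 - t ^ 2 / (2 + 4 * t + t ^ 2) = 2 * (1 + 2 * t) / (2 + 4 * t + t ^ 2) := by
      field_simp
      ring
    have h4 : 1 + 2 * t ≠ 0 := by positivity
    rw [h2, h3]
    field_simp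
  have eL2 : (1 + 3 * t) / (1 + t) ^ 2 =
      (1 + t * (1 - t) / (2 + 5 * t + t ^ 2)) / (1 - t * (1 - t) / (2 + 5 * t + t ^ 2)) := by
    have h2 : 1 + t * (1 - t) / (2 + 5 * t + t ^ 2) = 2 * (1 + 3 * t) / (2 + 5 * t + t ^ 2) := by
      field_simp
      ring
    have h3 : 1 - t * (1 - t) / (2 + 5 * t + t ^ 2) = 2 * (1 + t) ^ 2 / (2 + 5 * t + t ^ 2) := by
      field_simp
      ring
    have h4 : 1 + t ≠ 0 := by positivity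
    rw [h2, h3]
    field_simp
  have hL2 : - log ((1 + t) ^ 2 / (1 + 3 * t)) = log ((1 + 3 * t) / (1 + t) ^ 2) := by
    rw [← Real.log_inv, inv_div]
  obtain ⟨u1, u2⟩ := Q1B_log w0 (by linarith)
  obtain ⟨v1, v2⟩ := Q1B_log z0 (by linarith)
  rw [← eL1] at u1 u2
  rw [← eL2, ← hL2] at v1 v2
  have t1 := Q1B_tail1 z0 z1
  have t2 := Q1B_tail2 w0 w1
  -- the main terms
  have eA : 2 * (t * (1 - t) / (2 + 5 * t + t ^ 2) + (t * (1 - t) / (2 + 5 * t + t ^ 2)) ^ 3 / 3) =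
      (6 * (t * (1 - t)) * (2 + 5 * t + t ^ 2) ^ 2 + 2 * (t * (1 - t)) ^ 3) / (3 * (2 + 5 * t + t ^ 2) ^ 3) := by
    field_simp
    ring
  have eB : scr t * (2 * (t ^ 2 / (2 + 4 * t + t ^ 2) + (t ^ 2 / (2 + 4 * t + t ^ 2)) ^ 3 / 3)) =
      ((1 + 3 * t) * (1 - t) ^ 3 * (6 * (2 + 4 * t + t ^ 2) ^ 2 + 2 * t ^ 4)) / (48 * t * (2 + 4 * t + t ^ 2) ^ 3) := by
    unfold scr
    field_simp
    ring
  rw [← eA] at a1 a2
  rw [← eB] at b1 b2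
  have s2 := mul_le_mul_of_nonneg_left u1 s0
  have s3 := mul_le_mul_of_nonneg_left u2 s0
  have s4 := mul_le_mul s1 t2 (by
    have : 0 < 1 - (t ^ 2 / (2 + 4 * t + t ^ 2)) ^ 2 := by
      have e2 : (t ^ 2 / (2 + 4 * t + t ^ 2)) ^ 2 ≤ (81 / 1000) ^ 2 := pow_le_pow_left₀ w0 w1 2
      norm_num at e2
      linarith
    positivity) (by norm_num)
  have hq : q1c t = scr t * log ((1 + t) ^ 2 / (1 + 2 * t)) + - log ((1 + t) ^ 2 / (1 + 3 * t)) + Q1B_C t := by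
    rw [q1c_eq ht0 ht1, Q1B_C]
    ring
  unfold Q1B_pA at a1 a2
  unfold Q1B_pB at b1 b2
  unfold Q1B_pC at c1 c2
  rw [hq]
  generalize t - 62875 / 100000 = τ at *
  generalize t ^ 2 / (2 + 4 * t + t ^ 2) = w at *
  generalize t * (1 - t) / (2 + 5 * t + t ^ 2) = z at *
  generalize scr t = s at *
  have s5 : s * (2 * (w + w ^ 3 / 3 + w ^ 5 / 5 + w ^ 7 / (1 - w ^ 2))) =
      s * (2 * (w + w ^ 3 / 3)) + s * (2 * (w ^ 5 / 5 + w ^ 7 / (1 - w ^ 2))) := by ring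
  rw [s5] at s3
  obtain ⟨h1', g1⟩ := Q1B_pow hτ 1
  obtain ⟨h2', g2⟩ := Q1B_pow hτ 2
  obtain ⟨h3', g3⟩ := Q1B_pow hτ 3
  norm_num only at h1' g1 h2' g2 h3' g3
  constructor <;> linarith

end PGn
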