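import Pool.Agent.PGn.PassD
import Pool.Agent.PGm.M39
import Pool.Agent.PGm.M42
import Pool.Agent.PGm.M08

/-! # Module RotC: bounds for the rotations -/

set_option linter.unusedSectionVars false

namespace PGn
open PGr PGa Real
open scoped ENNReal

variable {u v kv x : ℝ}

private theorem RotC_t {u v : ℝ} (h : Reg u v) :
    ∃ t : ℝ, 0 < t ∧ t < 1 ∧ v < t ∧ scr t = PGa.sv u v ∧ uf (scr t) v = u ∧
      Ef (scr t) v = PGa.ev u v := by
  obtain ⟨t, h0, h1, hv, hs, hu⟩ := reg_t h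
  refine ⟨t, h0, h1, hv, hs, ?_, ?_⟩
  · rw [hs]
    exact hu
  · rw [hs, Ef, hu, PGa.ev]

/-- `Api_value` at the point `(u, v)` (`reg_t`; `Ef (sv u v) v = ev u v`) -/
theorem api_uv (h : Reg u v) (hs : sv u v ≤ 1 / 10) (hkv : 0 ≤ kv) (hx : 0 ≤ x) (d : ℝ≥0∞) :
    Api (ENNReal.ofReal kv) (ENNReal.ofReal (sv u v)) d (ENNReal.ofReal x)
      (ENNReal.ofReal (ev u v)) =
      ENNReal.ofReal (kv * Apv u v (sv u v) (ev u v) + Apf u v (ev u v) +
        x * Ape u v (sv u v) (ev u v)) ∧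
    0 ≤ kv * Apv u v (sv u v) (ev u v) + Apf u v (ev u v) + x * Ape u v (sv u v) (ev u v) := by
  obtain ⟨t, h0, h1, hv, e1, e2, e3⟩ := RotC_t h
  obtain ⟨e, a1, a2, a3⟩ := Api_value (kv := kv) (x := x) h0 h1 (by rw [e1]; exact hs) h.v0 hv
    hkv hx d
  rw [e2, e3, e1] at e a1 a3
  rw [e2, e3] at a2
  exact ⟨e, add_nonneg (add_nonneg (mul_nonneg hkv a1) a2) (mul_nonneg hx a3)⟩

/-- `Qk_value` -/
theorem q3_uv (h : Reg u v) (hs : sv u v ≤ 1 / 10) (hkv : 0 ≤ kv) (x : ℝ≥0∞) :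
    Qk 3 (ENNReal.ofReal kv) (ENNReal.ofReal (sv u v)) x (ENNReal.ofReal (ev u v)) =
      ENNReal.ofReal (kv * log ((1 - u * v) * (1 - v) / (1 - v - u * v)) - log (1 - u * v)) := by
  obtain ⟨t, h0, h1, hv, e1, e2, e3⟩ := RotC_t h
  have e := Qk_value (kv := kv) h0 h1 (by rw [e1]; exact hs) h.v0 hv hkv (k := 3) le_rfl x
  rw [e2, e3, e1] at e
  rw [e]
  congr 1
  have hv1 : 0 < 1 - v := by linarith [h.v1]
  have huv : 0 < 1 - u * v := by nlinarith [h.u0, h.v0, h.u1, h.v1]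
  have h2 : 0 < 1 - v - u * v := by nlinarith [h.q, mul_pos h.u0 h.v0, h.u0]
  have h3 : 1 + PGa.ev u v = (1 - v - u * v) / (1 - v) ^ 2 := by
    unfold PGa.ev
    field_simp
    ring
  rw [h3, log_div huv.ne' hv1.ne', log_div h2.ne' (pow_pos hv1 2).ne',
    log_div (mul_pos huv hv1).ne' h2.ne', log_mul huv.ne' hv1.ne', log_pow]
  push_cast
  ring

/-- `Q2_value` -/
theorem q2_uv (h : Reg u v) (hs : sv u v ≤ 1 / 10) (hkv : 0 ≤ kv) (hx : 0 ≤ x) :
    Qk 2 (ENNReal.ofReal kv) (ENNReal.ofReal (sv u v)) (ENNReal.ofReal x)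
      (ENNReal.ofReal (ev u v)) =
      ENNReal.ofReal (kv * Q2v u v (sv u v) (ev u v) + Q2f u v + x * Q2e u v (sv u v) (ev u v)) := by
  obtain ⟨t, h0, h1, hv, e1, e2, e3⟩ := RotC_t h
  obtain ⟨e, -⟩ := Q2_value (kv := kv) (x := x) h0 h1 (by rw [e1]; exact hs) h.v0 hv hkv hx
  rw [e2, e3, e1] at e
  exact e

private theorem RotC_regU : Reg (149 / 50000) (2011 / 4000) := ⟨by norm_num, by norm_num, by norm_num⟩
private theorem RotC_regL : Reg (13 / 5000) (5019 / 10000) := ⟨by norm_num, by norm_num, by norm_num⟩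

/-- upper bound: `u = 149 / 50000`, `v = 2011 / 4000`, `kv = 3823 / 100000`, `x = 1121 / 1000` (value `0.0017501`); lower bound: `u = 13 / 5000`, `v = 5019 / 10000`, `kv = 36 / 1000`, `x = 1` (value `0.0013611`);
monotonicity (`rApi_mono`, the argument `d` is arbitrary; finiteness from the upper point) -/
theorem apiC : ApiC := by
  intro k k2 d s d2 h1 h2 h3 h4 h5 h6 h7 h8
  have U := api_uv RotC_regU (by unfold PGa.sv; norm_num) (kv := 3823 / 100000) (x := 1121 / 1000)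
    (by norm_num) (by norm_num) (ENNReal.ofReal d)
  have L := api_uv RotC_regL (by unfold PGa.sv; norm_num) (kv := 36 / 1000) (x := 1)
    (by norm_num) (by norm_num) (ENNReal.ofReal d)
  have hsU : k2 ≤ PGa.sv (149 / 50000) (2011 / 4000) := h4.trans (by unfold PGa.sv; norm_num)
  have heU : d2 ≤ PGa.ev (149 / 50000) (2011 / 4000) := h8.trans (by unfold PGa.ev; norm_num)
  have hsL : PGa.sv (13 / 5000) (5019 / 10000) ≤ k2 := le_trans (by unfold PGa.sv; norm_num) h3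
  have heL : PGa.ev (13 / 5000) (5019 / 10000) ≤ d2 := le_trans (by unfold PGa.ev; norm_num) h7
  have fU : Api (ENNReal.ofReal (3823 / 100000)) (ENNReal.ofReal (PGa.sv (149 / 50000) (2011 / 4000)))
      (ENNReal.ofReal d) (ENNReal.ofReal (1121 / 1000))
      (ENNReal.ofReal (PGa.ev (149 / 50000) (2011 / 4000))) ≠ ⊤ := by
    rw [U.1]
    exact ENNReal.ofReal_ne_top
  have fM : Api (ENNReal.ofReal k) (ENNReal.ofReal k2) (ENNReal.ofReal d) (ENNReal.ofReal s)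
      (ENNReal.ofReal d2) ≠ ⊤ :=
    ne_top_of_le_ne_top fU (Api_mono (ENNReal.ofReal_le_ofReal h2) (ENNReal.ofReal_le_ofReal hsU)
      le_rfl (ENNReal.ofReal_le_ofReal h6) (ENNReal.ofReal_le_ofReal heU))
  constructor
  · refine le_trans ?_ (rApi_mono fM h1 hsL le_rfl h5 heL)
    rw [rApi, L.1, ENNReal.toReal_ofReal L.2]
    unfold Apv Apf Ape PGa.ev PGa.sv
    norm_num
  · refine (rApi_mono fU h2 hsU le_rfl h6 heU).trans ?_
    rw [rApi, U.1, ENNReal.toReal_ofReal U.2]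
    unfold Apv Apf Ape PGa.ev PGa.sv
    norm_num

private theorem RotC_q3 {u v kv : ℝ} (h : Reg u v) (hkv : 0 ≤ kv) :
    kv * ((1 - u * v) * (1 - v) / (1 - v - u * v) - 1) / ((1 - u * v) * (1 - v) / (1 - v - u * v)) +
      u * v ≤ kv * log ((1 - u * v) * (1 - v) / (1 - v - u * v)) - log (1 - u * v) ∧
    kv * log ((1 - u * v) * (1 - v) / (1 - v - u * v)) - log (1 - u * v) ≤
      kv * ((1 - u * v) * (1 - v) / (1 - v - u * v) - 1) + (u * v) / (1 - u * v) := by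
  have hv1 : 0 < 1 - v := by linarith [h.v1]
  have huv : 0 < 1 - u * v := by nlinarith [h.u0, h.v0, h.u1, h.v1]
  have h2 : 0 < 1 - v - u * v := by nlinarith [h.q, mul_pos h.u0 h.v0, h.u0]
  have hz : 0 < (1 - u * v) * (1 - v) / (1 - v - u * v) := div_pos (mul_pos huv hv1) h2
  generalize (1 - u * v) * (1 - v) / (1 - v - u * v) = z at hz ⊢
  have a1 := log_le_sub_one_of_pos hz
  have a2 := one_sub_inv_le_log_of_pos hz
  have b1 := log_le_sub_one_of_pos huv
  have b2 := one_sub_inv_le_log_of_pos huv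
  constructor
  · have c1 : kv * (z - 1) / z = kv * (1 - z⁻¹) := by
      field_simp
    have c2 := mul_le_mul_of_nonneg_left a2 hkv
    rw [c1]
    linarith
  · have c1 : u * v / (1 - u * v) = - (1 - (1 - u * v)⁻¹) := by
      field_simp
      ring
    have c2 := mul_le_mul_of_nonneg_left a1 hkv
    rw [c1]
    linarith

private theorem RotC_reg3U : Reg (113 / 1000000) (100021 / 200000) :=
  ⟨by norm_num, by norm_num, by norm_num⟩
private theorem RotC_reg3L : Reg (93 / 1000000) (125011 / 250000) :=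
  ⟨by norm_num, by norm_num, by norm_num⟩

/-- upper bound: `u = 113 / 1000000`, `v = 100021 / 200000`, `kv = 3823 / 100000` (value `0.000058677`; `log (1 + a) ≤ a`, `- log (1 - b) ≤ b / (1 - b)` with `a = u v^2 / (1 - v - u v)`, `b = u v`); lower bound: `u = 93 / 1000000`,
`v = 125011 / 250000`, `kv = 36 / 1000` (value `0.00004818`; `log (1 + a) ≥ a - a^2 / 2`, `- log (1 - b) ≥ b`); monotonicity -/
theorem q3_bd {k x s d : ℝ} (h1 : 36 / 1000 ≤ k) (h2 : k ≤ 3823 / 100000)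
    (h3 : 47 / 1000000 ≤ x) (h4 : x ≤ 562 / 10000000) (h5 : 0 ≤ s) (h6 : s ≤ 1121 / 1000)
    (h7 : 1 ≤ d) (h8 : d ≤ 1000192 / 1000000) :
    48 / 1000000 ≤ rQk 3 k x s d ∧ rQk 3 k x s d ≤ 59 / 1000000 := by
  have U := q3_uv RotC_reg3U (by unfold PGa.sv; norm_num) (kv := 3823 / 100000) (by norm_num)
    (ENNReal.ofReal s)
  have L := q3_uv RotC_reg3L (by unfold PGa.sv; norm_num) (kv := 36 / 1000) (by norm_num)
    (ENNReal.ofReal s)
  have hsU : x ≤ PGa.sv (113 / 1000000) (100021 / 200000) := h4.trans (by unfold PGa.sv; norm_num)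
  have heU : d ≤ PGa.ev (113 / 1000000) (100021 / 200000) := h8.trans (by unfold PGa.ev; norm_num)
  have hsL : PGa.sv (93 / 1000000) (125011 / 250000) ≤ x := le_trans (by unfold PGa.sv; norm_num) h3
  have heL : PGa.ev (93 / 1000000) (125011 / 250000) ≤ d := le_trans (by unfold PGa.ev; norm_num) h7
  have fU : Qk 3 (ENNReal.ofReal (3823 / 100000))
      (ENNReal.ofReal (PGa.sv (113 / 1000000) (100021 / 200000))) (ENNReal.ofReal s)
      (ENNReal.ofReal (PGa.ev (113 / 1000000) (100021 / 200000))) ≠ ⊤ := by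
    rw [U]
    exact ENNReal.ofReal_ne_top
  have fM : Qk 3 (ENNReal.ofReal k) (ENNReal.ofReal x) (ENNReal.ofReal s) (ENNReal.ofReal d) ≠ ⊤ :=
    ne_top_of_le_ne_top fU (Qk_mono 3 (ENNReal.ofReal_le_ofReal h2)
      (ENNReal.ofReal_le_ofReal hsU) le_rfl (ENNReal.ofReal_le_ofReal heU))
  have bU := RotC_q3 RotC_reg3U (kv := 3823 / 100000) (by norm_num)
  have bL := RotC_q3 RotC_reg3L (kv := 36 / 1000) (by norm_num)
  constructor
  · refine le_trans ?_ (rQk_mono 3 fM h1 hsL le_rfl heL)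
    have b1 : (48 : ℝ) / 1000000 ≤ 36 / 1000 * ((1 - 93 / 1000000 * (125011 / 250000)) *
        (1 - 125011 / 250000) / (1 - 125011 / 250000 - 93 / 1000000 * (125011 / 250000)) - 1) /
        ((1 - 93 / 1000000 * (125011 / 250000)) * (1 - 125011 / 250000) /
        (1 - 125011 / 250000 - 93 / 1000000 * (125011 / 250000))) +
        93 / 1000000 * (125011 / 250000) := by norm_num
    have b2 := b1.trans bL.1
    rw [rQk, L, ENNReal.toReal_ofReal (le_trans (by norm_num) b2)]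
    exact b2
  · refine (rQk_mono 3 fU h2 hsU le_rfl heU).trans ?_
    rw [rQk, U, ENNReal.toReal_ofReal']
    exact max_le (bU.2.trans (by norm_num)) (by norm_num)

private theorem RotC_reg2 : Reg (3 / 1000) (503 / 1000) := ⟨by norm_num, by norm_num, by norm_num⟩

/-- `u = 3 / 1000`, `v = 503 / 1000`, `kv = 3823 / 100000`, `x = 1121 / 1000` (value `0.00000375`; `log (1 + a) ≤ a - a^2 / 2 + a^3 / 3` with `a = u v^2 / (1 - v - u v)`, `- log (1 - b) - b ≤ b^2 / (2 (1 - b))` with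
`b = u v`) -/
theorem q2_bd {k x s d : ℝ} (h1 : 0 ≤ k) (h2 : k ≤ 3823 / 100000) (h3 : 0 ≤ x)
    (h4 : x ≤ 147 / 100000) (h5 : 0 ≤ s) (h6 : s ≤ 1121 / 1000) (h7 : 0 ≤ d)
    (h8 : d ≤ 1005 / 1000) : rQk 2 k x s d ≤ 4 / 1000000 := by
  have U := q2_uv RotC_reg2 (by unfold PGa.sv; norm_num) (kv := 3823 / 100000)
    (x := 1121 / 1000) (by norm_num) (by norm_num)
  have hsU : x ≤ PGa.sv (3 / 1000) (503 / 1000) := h4.trans (by unfold PGa.sv; norm_num)
  have heU : d ≤ PGa.ev (3 / 1000) (503 / 1000) := h8.trans (by unfold PGa.ev; norm_num)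
  have fU : Qk 2 (ENNReal.ofReal (3823 / 100000)) (ENNReal.ofReal (PGa.sv (3 / 1000) (503 / 1000)))
      (ENNReal.ofReal (1121 / 1000)) (ENNReal.ofReal (PGa.ev (3 / 1000) (503 / 1000))) ≠ ⊤ := by
    rw [U]
    exact ENNReal.ofReal_ne_top
  refine (rQk_mono 2 fU h2 hsU h6 heU).trans ?_
  rw [rQk, U, ENNReal.toReal_ofReal']
  refine max_le ?_ (by norm_num)
  have hz : (0 : ℝ) < (1 - 3 / 1000 * (503 / 1000)) * (1 - 503 / 1000) /
      (1 - 503 / 1000 - 3 / 1000 * (503 / 1000)) := by norm_num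
  have a1 := log_le_sub_one_of_pos hz
  have b1 := abs_log_sub_add_sum_range_le (x := 3 / 1000 * (503 / 1000))
    (by rw [abs_of_pos (by norm_num)]; norm_num) 2
  rw [abs_of_pos (show (0 : ℝ) < 3 / 1000 * (503 / 1000) by norm_num)] at b1
  have b2 := (abs_le.1 b1).1
  rw [Finset.sum_range_succ, Finset.sum_range_succ, Finset.sum_range_zero] at b2
  unfold Q2v Q2f Q2e PGa.ev PGa.sv
  have a2 : (3823 : ℝ) / 100000 * log ((1 - 3 / 1000 * (503 / 1000)) * (1 - 503 / 1000) /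
      (1 - 503 / 1000 - 3 / 1000 * (503 / 1000))) ≤ 3823 / 100000 *
      ((1 - 3 / 1000 * (503 / 1000)) * (1 - 503 / 1000) /
      (1 - 503 / 1000 - 3 / 1000 * (503 / 1000)) - 1) :=
    mul_le_mul_of_nonneg_left a1 (by norm_num)
  have b3 : - log (1 - 3 / 1000 * (503 / 1000)) ≤ (3 / 1000 * (503 / 1000)) +
      (3 / 1000 * (503 / 1000)) ^ 2 / 2 +
      (3 / 1000 * (503 / 1000)) ^ 3 / (1 - 3 / 1000 * (503 / 1000)) := by
    norm_num at b2 ⊢
    linarith
  generalize log ((1 - 3 / 1000 * (503 / 1000)) * (1 - 503 / 1000) /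
      (1 - 503 / 1000 - 3 / 1000 * (503 / 1000)) : ℝ) = l1 at a2 ⊢
  generalize log (1 - 3 / 1000 * (503 / 1000) : ℝ) = l2 at b3 ⊢
  norm_num at a2 b3 ⊢
  linarith

theorem qC : QC := ⟨fun _ _ _ _ h1 h2 h3 h4 h5 h6 h7 h8 => q3_bd h1 h2 h3 h4 h5 h6 h7 h8,
  fun _ _ _ _ h1 h2 h3 h4 h5 h6 h7 h8 => q2_bd h1 h2 h3 h4 h5 h6 h7 h8⟩

end PGn
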