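import Pool.Agent.PGm.M36

/-! # Module PassD: `P` and `r` -/

set_option linter.unusedSectionVars false

namespace PGn
open PGr Real

variable {N : Num} {r t K D S K2 D2 K3 D3 X X2 P P2 Z y : ℝ}

/-- the values of `Qk` -/
def QC : Prop := (∀ k x s d : ℝ, 36 / 1000 ≤ k → k ≤ 3823 / 100000 → 47 / 1000000 ≤ x →
    x ≤ 562 / 10000000 → 0 ≤ s → s ≤ 1121 / 1000 → 1 ≤ d → d ≤ 1000192 / 1000000 →
    48 / 1000000 ≤ rQk 3 k x s d ∧ rQk 3 k x s d ≤ 59 / 1000000) ∧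
  (∀ k x s d : ℝ, 0 ≤ k → k ≤ 3823 / 100000 → 0 ≤ x → x ≤ 147 / 100000 → 0 ≤ s →
    s ≤ 1121 / 1000 → 0 ≤ d → d ≤ 1005 / 1000 → rQk 2 k x s d ≤ 4 / 1000000)

private theorem PassD_tl {r r' x x' : ℝ} (hr : 0 ≤ r) (hrr : r ≤ r') (h1 : r' < 1)
    (hx : 0 ≤ x) (hxx : x ≤ x') : tl r x ≤ tl r' x' := by
  unfold tl
  have hr' : 0 ≤ r' := hr.trans hrr
  have hx' : 0 ≤ x' := hx.trans hxx
  have e1 : r * x / 3 ≤ r' * x' / 3 := by gcongr
  have e2 : r ^ 2 * x / (4 * (1 - r)) ≤ r' ^ 2 * x' / (4 * (1 - r')) := by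
    apply div_le_div₀
    · positivity
    · gcongr
    · linarith
    · linarith
  linarith

private theorem PassD_tl0 {r x : ℝ} (hr : 0 ≤ r) (h1 : r < 1) (hx : 0 ≤ x) : 0 ≤ tl r x := by
  unfold tl
  have : 0 ≤ r ^ 2 * x / (4 * (1 - r)) := div_nonneg (by positivity) (by linarith)
  have : 0 ≤ r * x / 3 := by positivity
  linarith

private theorem PassD_cub {r r' : ℝ} (hr : 0 ≤ r) (hrr : r ≤ r') :
    r ^ 3 / (3 * (1 + r ^ 3)) ≤ r' ^ 3 / (3 * (1 + r' ^ 3)) := by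
  have hr' : 0 ≤ r' := hr.trans hrr
  rw [div_le_div_iff₀ (by positivity) (by positivity)]
  have : r ^ 3 ≤ r' ^ 3 := by gcongr
  nlinarith [this]

private theorem PassD_scr {t t' : ℝ} (h0 : 3 / 5 ≤ t) (h : t ≤ t') (h1 : t' ≤ 16 / 25) :
    scr t' ≤ scr t := by
  have := scr_strictAntiOn.antitoneOn
  exact this ⟨by linarith, by linarith⟩ ⟨by linarith, by linarith⟩ h

private theorem PassD_ecr {t t' : ℝ} (h0 : 3 / 5 ≤ t) (h : t ≤ t') (h1 : t' ≤ 16 / 25) :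
    ecr t ≤ ecr t' := by
  have := ecr_strictMonoOn.monotoneOn
  exact this ⟨by linarith, by linarith⟩ ⟨by linarith, by linarith⟩ h

/-- `yl`, `yu` with the bounds of `QC` (`K3 ≤ r K2`, `K3 ≥ r^3 ≥ 47/1000000`, `D3 ≤ 1 + r (D2 - 1)`), `q1c ∈ [52/10^6, 545/10^7]`, `RB` -/
theorem passY (h : Fct r t K D S K2 D2 K3 D3 X X2 P P2 Z y) (oA : OkA N) (oB : OkB N)
    (oD : OkD N) (b : Box N.r0 N.r1 N.t0 N.t1 N.S0 N.S1 N.Dc r t S D2)
    (hb : RB N K D S K2 D2 X2) (hQ : QC) (hq : 52 / 1000000 ≤ q1c t)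
    (hq' : q1c t ≤ 545 / 10000000) (h1 : 36 / 1000 ≤ N.Ka) (h4 : N.S1 ≤ 1121 / 1000)
    (h5 : N.Dc ≤ 1005 / 1000) : N.ya ≤ y ∧ y ≤ N.yb := by
  have a := hb.toRA
  have rp : 0 < r := by linarith [h.r0]
  have r1p : 0 ≤ N.r1 := rp.le.trans b.r1
  have hr1 := oA.r1
  have K2p : 0 < K2 := lt_of_lt_of_le oA.K2a a.K2a
  have Kp : 0 < K := by linarith [a.Ka]
  have D2p : 1 ≤ D2 := h.D21
  have S1 := h.S1
  have hK := a.Kb.trans oA.Kb
  have hK2 := a.K2b.trans oA.K2b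
  have rK := h.rK
  have hD2 := b.Dc.trans h5
  have k3l : 47 / 1000000 ≤ K3 := by
    refine le_trans ?_ h.K3l
    have : (10 / 277 : ℝ) ^ 3 ≤ r ^ 3 := by
      have := h.r0
      gcongr
    refine le_trans ?_ this
    norm_num
  have k3u : K3 ≤ 562 / 10000000 := by
    refine le_trans h.K3u ?_
    have : r * K2 ≤ (3823 / 100000) * (147 / 100000) :=
      mul_le_mul (rK.trans hK) hK2 K2p.le (by norm_num)
    refine le_trans this ?_
    norm_num
  have d3u : D3 ≤ 1000192 / 1000000 := by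
    refine le_trans h.D3u ?_
    have : r * (D2 - 1) ≤ (3823 / 100000) * (5 / 1000) :=
      mul_le_mul (rK.trans hK) (by linarith) (by linarith) (by norm_num)
    linarith
  obtain ⟨q1, q2⟩ := hQ.1 K K3 S D3 (h1.trans a.Ka) hK k3l k3u (by linarith) (b.S1.trans h4) h.D3l
    d3u
  have q3 := hQ.2 K K2 S D2 Kp.le hK K2p.le hK2 (by linarith) (b.S1.trans h4) (by linarith) hD2
  have Dp : 1 ≤ D := h.D1
  have avp : 0 ≤ rAv K K2 D S D2 := oA.avL.trans hb.avL
  have Kap : 0 ≤ N.Ka := by linarith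
  have Dap : 0 ≤ N.Da := by linarith [oA.Da]
  have m1 : N.Ka * N.Da * N.avL ≤ K * D * rAv K K2 D S D2 :=
    mul_le_mul (mul_le_mul a.Ka a.Da Dap Kp.le) hb.avL oA.avL (by positivity)
  have m2 : K * D * rAv K K2 D S D2 ≤ N.Kb * N.Db * N.avU :=
    mul_le_mul (mul_le_mul a.Kb a.Db (by linarith) (Kp.le.trans a.Kb)) hb.avU avp
      (mul_nonneg (Kp.le.trans a.Kb) (by linarith [a.Db]))
  constructor
  · linarith [h.yl, oD.ya, hb.acL]
  · have e1 : rQk 3 K K3 S D3 * r / (2 * (1 - r)) ≤ 59 / 1000000 * N.r1 / (2 * (1 - N.r1)) := by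
      apply div_le_div₀
      · positivity
      · exact mul_le_mul q2 b.r1 rp.le (by norm_num)
      · linarith
      · linarith [b.r1]
    linarith [h.yu, oD.yb, hb.acU]

/-- `X` from `eDl`, `eDu` and `lg_bd`; `K`, `D` between the new bounds `Kan`, `Kbn`, `Dan`, `Dbn` (`passT`); `eP`: `K (D - X - D X) = K (D (1 - X) - X)` is increasing in `K`, `D`, decreasing in `X`;
`K^2 D^2 (D / (1 + K D)) = K^2 D^3 / (1 + K D)`; `P2u`: `K2 (D2 - X2 - D2 X2) = K2 (D2 (1 - X2) - X2)` -/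
theorem passP (h : Fct r t K D S K2 D2 K3 D3 X X2 P P2 Z y) (oA : OkA N) (oB : OkB N)
    (oC : OkC N) (oD : OkD N) (b : Box N.r0 N.r1 N.t0 N.t1 N.S0 N.S1 N.Dc r t S D2)
    (hb : RB N K D S K2 D2 X2) (hy : N.ya ≤ y) (hy' : y ≤ N.yb) (ht : N.t0n ≤ t)
    (ht' : t ≤ N.t1n) : N.Kan ≤ K ∧ K ≤ N.Kbn ∧ N.Pa ≤ P ∧ P ≤ N.Pb ∧ P2 ≤ N.P2b := by
  have a := hb.toRA
  have rp : 0 < r := by linarith [h.r0]
  have r1p : 0 ≤ N.r1 := rp.le.trans b.r1
  have hr1 := oA.r1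
  have hr0 := oA.r0
  have K2p : 0 < K2 := lt_of_lt_of_le oA.K2a a.K2a
  have Kp : 0 < K := by linarith [a.Ka, oA.Ka]
  have D2p : 1 ≤ D2 := h.D21
  have S1 := h.S1
  have hK := a.Kb.trans oA.Kb
  have hK2 := a.K2b.trans oA.K2b
  have hD2 := b.Dc.trans oA.Dc
  have Dp : 1 ≤ D := h.D1
  have t0' := oC.t0n
  have t1' := oC.t1n'
  have K2ap := oA.K2a
  have K2bp : 0 < N.K2b := lt_of_lt_of_le K2p a.K2b
  have Dcp : 0 < N.Dc := by linarith [b.Dc]
  have D2ap : 0 < N.D2a := by linarith [oA.D2a]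
  have Kap : 0 < N.Ka := by linarith [oA.Ka]
  have Kbp : 0 < N.Kb := by linarith [a.Kb]
  have S0p : 0 < N.S0 := by linarith [oA.S0]
  have S1p : 0 < N.S1 := by linarith [b.S1]
  have hX2p : 0 ≤ X2 := by
    refine le_trans ?_ h.X2l
    positivity
  have ka : N.Kan ≤ K := by
    rw [h.hK]
    exact oD.Ka.trans (PassD_scr (by linarith) ht' t1')
  have kb : K ≤ N.Kbn := by
    rw [h.hK]
    exact (PassD_scr t0' ht (by linarith)).trans oD.Kb
  have da : N.Dan ≤ D := by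
    rw [h.hD]
    exact oD.Da.trans (PassD_ecr t0' ht (by linarith))
  have db : D ≤ N.Dbn := by
    rw [h.hD]
    exact (PassD_ecr (by linarith) ht' t1').trans oD.Db
  have ka' := oD.Ka'
  have kb' := oD.Kb'
  have da' := oD.Da'
  have db' := oD.Db'
  have tu := PassD_tl rp.le b.r1 (by linarith) hX2p hb.X2b
  have cu := PassD_cub (by linarith [oA.r0]) b.r0
  have lu : log ((1 + D) / 2) ≤ lgU ((1 + N.Dbn) / 2) :=
    (Real.log_le_log (by linarith) (by linarith)).trans (lg_bd (by linarith) (by linarith)).2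
  have ll : lgL ((1 + N.Dan) / 2) ≤ log ((1 + D) / 2) :=
    (lg_bd (by linarith) (by linarith)).1.trans (Real.log_le_log (by linarith) (by linarith))
  have xa : N.Xa ≤ X := by linarith [h.eDu, oD.Xa, hb.X2b]
  have xb : X ≤ N.Xb := by linarith [h.eDl, oD.Xb, hb.X2a]
  have xa' := oD.Xa'
  have xb' := oD.Xb'
  -- the first term
  have f1 : K * (D - X - D * X) ≤ N.Kbn * (N.Dbn * (1 - N.Xa) - N.Xa) := by
    have e1 : D * (1 - X) ≤ N.Dbn * (1 - N.Xa) :=
      mul_le_mul db (by linarith) (by linarith) (by linarith)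
    have e2 : 1 * (9 / 10) ≤ D * (1 - X) :=
      mul_le_mul Dp (by linarith) (by norm_num) (by linarith)
    have e3 := mul_le_mul (a := K) (b := N.Kbn) (c := D * (1 - X) - X)
      (d := N.Dbn * (1 - N.Xa) - N.Xa) kb (by linarith) (by linarith) (by linarith)
    linarith
  have f1' : N.Kan * (N.Dan * (1 - N.Xb) - N.Xb) ≤ K * (D - X - D * X) := by
    have e1 : N.Dan * (1 - N.Xb) ≤ D * (1 - X) :=
      mul_le_mul da (by linarith) (by linarith) (by linarith)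
    have e2 : 1 * (9 / 10) ≤ N.Dan * (1 - N.Xb) :=
      mul_le_mul da' (by linarith) (by norm_num) (by linarith)
    have e3 := mul_le_mul (a := N.Kan) (b := K) (c := N.Dan * (1 - N.Xb) - N.Xb)
      (d := D * (1 - X) - X) ka (by linarith) (by linarith) (by linarith)
    linarith
  -- the second term
  have kd : N.Kan * N.Dan ≤ K * D := mul_le_mul ka da (by linarith) Kp.le
  have kd' : K * D ≤ N.Kbn * N.Dbn := mul_le_mul kb db (by linarith) (by linarith)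
  have kdp : 0 < N.Kan * N.Dan := mul_pos (by linarith) (by linarith)
  have f2 : K ^ 2 * D ^ 2 * (D / (1 + K * D)) ≤ N.Kbn ^ 2 * N.Dbn ^ 3 / (1 + N.Kan * N.Dan) := by
    have e : K ^ 2 * D ^ 2 * (D / (1 + K * D)) = K ^ 2 * D ^ 3 / (1 + K * D) := by ring
    rw [e]
    apply div_le_div₀
    · have : 0 ≤ N.Dbn := by linarith
      positivity
    · have : 0 ≤ N.Kbn := by linarith
      gcongr
    · linarith
    · linarith
  have f2' : N.Kan ^ 2 * N.Dan ^ 3 / (1 + N.Kbn * N.Dbn) ≤ K ^ 2 * D ^ 2 * (D / (1 + K * D)) := by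
    have e : K ^ 2 * D ^ 2 * (D / (1 + K * D)) = K ^ 2 * D ^ 3 / (1 + K * D) := by ring
    rw [e]
    apply div_le_div₀
    · positivity
    · have : 0 ≤ N.Kan := by linarith
      have : 0 ≤ N.Dan := by linarith
      gcongr
    · linarith
    · linarith
  -- the third term
  have fu : D2 / (1 + K2 * D2) ≤ N.Dc / (1 + N.K2a * N.D2a) := by
    apply div_le_div₀ Dcp.le b.Dc (by positivity)
    have := mul_le_mul a.K2a a.D2a D2ap.le K2p.le
    linarith
  have fl : N.D2a / (1 + N.K2b * N.Dc) ≤ D2 / (1 + K2 * D2) := by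
    apply div_le_div₀ (by linarith) a.D2a (by positivity)
    have := mul_le_mul a.K2b b.Dc (by linarith) K2bp.le
    linarith
  have gu : K + K2 * S ≤ N.Kb + N.K2b * N.S1 :=
    add_le_add a.Kb (mul_le_mul a.K2b b.S1 (by linarith) K2bp.le)
  have gl : N.Ka + N.K2a * N.S0 ≤ K + K2 * S :=
    add_le_add a.Ka (mul_le_mul a.K2a b.S0 S0p.le K2p.le)
  have gp : 0 ≤ K + K2 * S := by
    have : 0 ≤ K2 * S := mul_nonneg K2p.le (by linarith)
    linarith
  have Fp : 0 ≤ D2 / (1 + K2 * D2) := by positivity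
  have pu := mul_le_mul fu gu gp (by positivity)
  have pl := mul_le_mul fl gl (by positivity) Fp
  have ip : 0 ≤ S - D2 / (1 + K2 * D2) * (K + K2 * S) := by
    have e1 : D2 / (1 + K2 * D2) ≤ 101 / 100 := by
      rw [div_le_iff₀ (by positivity)]
      have : 0 ≤ K2 * D2 := by positivity
      linarith
    have e2 : K + K2 * S ≤ 1 / 10 := by
      have : K2 * S ≤ (147 / 100000) * (9 / 8) :=
        mul_le_mul hK2 (b.S1.trans oA.S1) (by linarith) (by norm_num)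
      linarith
    have e3 := mul_le_mul e1 e2 gp (by norm_num)
    linarith
  have f3 : K2 * D2 * (S - D2 / (1 + K2 * D2) * (K + K2 * S)) ≤
      N.K2b * N.Dc * (N.S1 - N.D2a / (1 + N.K2b * N.Dc) * (N.Ka + N.K2a * N.S0)) :=
    mul_le_mul (mul_le_mul a.K2b b.Dc (by linarith) K2bp.le) (by linarith [b.S1]) ip
      (by positivity)
  have f3' : N.K2a * N.D2a * (N.S0 - N.Dc / (1 + N.K2a * N.D2a) * (N.Kb + N.K2b * N.S1)) ≤
      K2 * D2 * (S - D2 / (1 + K2 * D2) * (K + K2 * S)) := by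
    refine (mul_le_mul_of_nonneg_left
      (b := N.S0 - N.Dc / (1 + N.K2a * N.D2a) * (N.Kb + N.K2b * N.S1))
      (c := S - D2 / (1 + K2 * D2) * (K + K2 * S)) (by linarith [b.S0]) (by positivity)).trans ?_
    exact mul_le_mul_of_nonneg_right (mul_le_mul a.K2a a.D2a D2ap.le K2p.le) ip
  refine ⟨ka, kb, ?_, ?_, ?_⟩
  · rw [h.eP]
    linarith [oD.Pa]
  · rw [h.eP]
    linarith [oD.Pb]
  · refine le_trans h.P2u (le_trans ?_ oD.P2b)
    have x2a := hb.X2a
    have x2b := hb.X2b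
    have x2b' := oB.X2b'
    have x2a' : 0 ≤ N.X2a ∨ N.X2a < 0 := le_or_gt _ _
    have g1 : K2 * (D2 - X2 - D2 * X2) ≤ N.K2b * (N.Dc * (1 - N.X2a) - N.X2a) := by
      have e1 : D2 * (1 - X2) ≤ N.Dc * (1 - N.X2a) :=
        mul_le_mul b.Dc (by linarith) (by linarith) (by linarith)
      have e2 : 1 * (99 / 100) ≤ D2 * (1 - X2) :=
        mul_le_mul D2p (by linarith) (by norm_num) (by linarith)
      have e3 := mul_le_mul (a := K2) (b := N.K2b) (c := D2 * (1 - X2) - X2)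
        (d := N.Dc * (1 - N.X2a) - N.X2a) a.K2b (by linarith) (by linarith) (by linarith)
      linarith
    have rr : r ^ 2 ≤ N.r1 ^ 2 := by
      have := b.r1
      gcongr
    have g2 : K2 ^ 2 * D2 ^ 3 ≤ N.K2b ^ 2 * N.Dc ^ 3 := by
      have := a.K2b
      have := b.Dc
      gcongr
    have g3 : r ^ 2 * K2 * D2 ^ 2 ≤ N.r1 ^ 2 * N.K2b * N.Dc ^ 2 := by
      have := a.K2b
      have := b.Dc
      gcongr
    have ybp : 0 ≤ N.yb := by
      refine le_trans ?_ oD.yb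
      have i1 : 0 ≤ N.avU := oA.avL.trans (hb.avL.trans hb.avU)
      have i2 : 0 ≤ N.acU := oA.acL.trans (hb.acL.trans hb.acU)
      have i3 : 0 ≤ 59 / 1000000 * N.r1 / (2 * (1 - N.r1)) :=
        div_nonneg (by positivity) (by linarith)
      have i4 : 0 ≤ N.Kb * N.Db * N.avU :=
        mul_nonneg (mul_nonneg Kbp.le (by linarith [a.Db])) i1
      linarith
    have g4 : r ^ 2 * y ≤ N.r1 ^ 2 * N.yb :=
      (mul_le_mul_of_nonneg_left hy' (by positivity)).trans (mul_le_mul_of_nonneg_right rr ybp)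
    linarith

/-- `eKl`, `eKu`: `r = K exp (-(P + P2 / 2 + ..))`, `em_bd` -/
theorem passR (h : Fct r t K D S K2 D2 K3 D3 X X2 P P2 Z y) (oA : OkA N) (oD : OkD N)
    (b : Box N.r0 N.r1 N.t0 N.t1 N.S0 N.S1 N.Dc r t S D2)
    (hb : RB N K D S K2 D2 X2) (h1 : N.Kan ≤ K) (h2 : K ≤ N.Kbn) (h3 : N.Pa ≤ P)
    (h4 : P ≤ N.Pb) (h5 : P2 ≤ N.P2b) : N.r0n ≤ r ∧ r ≤ N.r1n := by
  have a := hb.toRA
  have rp : 0 < r := by linarith [h.r0]
  have r1p : 0 ≤ N.r1 := rp.le.trans b.r1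
  have hr1 := oA.r1
  have hr0 := oA.r0
  have K2p : 0 < K2 := lt_of_lt_of_le oA.K2a a.K2a
  have Kp : 0 < K := by linarith [a.Ka, oA.Ka]
  have P2l := h.P2l
  have P2p : 0 ≤ P2 := by linarith
  have hK2 := a.K2b.trans oA.K2b
  have Pa' := oD.Pa'
  have Pb' := oD.Pb'
  have P2b' := oD.P2b'
  have K2ap := oA.K2a
  have r0p : 0 ≤ N.r0 := by linarith
  have e3 : N.r0 ^ 3 ≤ r ^ 3 := by
    have := b.r0
    gcongr
  have e3' : N.r0 ^ 3 ≤ (1 / 20) ^ 3 := by
    have := b.r0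
    have := b.r1
    have : N.r0 ≤ 1 / 20 := by linarith
    gcongr
  have e3p : 0 ≤ N.r0 ^ 3 := by positivity
  have tp := PassD_tl rp.le b.r1 (by linarith) P2p h5
  have tu : tl N.r1 N.P2b ≤ tl (1 / 20) (1 / 100) :=
    PassD_tl r1p hr1 (by norm_num) (P2p.trans h5) P2b'
  have tu' : tl (1 / 20) (1 / 100) ≤ 1 / 100 := by
    unfold tl
    norm_num
  have tn : 0 ≤ tl N.r1 N.P2b := PassD_tl0 r1p (by linarith) (P2p.trans h5)
  have hKr : 0 < K / r := by positivity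
  have key : r = K * exp (-log (K / r)) := by
    rw [Real.exp_neg, Real.exp_log hKr]
    field_simp
  have A : N.Pa + N.K2a / 2 + N.r0 ^ 3 / 3 ≤ log (K / r) := by
    linarith [h.eKl, a.K2a]
  have B : log (K / r) ≤ N.Pb + N.P2b / 2 + tl N.r1 N.P2b := by
    linarith [h.eKu]
  constructor
  · have e1 := (em_bd (x := N.Pb + N.P2b / 2 + tl N.r1 N.P2b) (by linarith) (by linarith)).1
    have e2 : exp (-(N.Pb + N.P2b / 2 + tl N.r1 N.P2b)) ≤ exp (-log (K / r)) :=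
      Real.exp_le_exp.2 (by linarith)
    refine oD.r0n.trans ?_
    rw [key]
    have e4 : N.Kan * emL (N.Pb + N.P2b / 2 + tl N.r1 N.P2b) ≤
        N.Kan * exp (-log (K / r)) :=
      mul_le_mul_of_nonneg_left (e1.trans e2) (by linarith [oD.Ka'])
    exact e4.trans (mul_le_mul_of_nonneg_right h1 (Real.exp_pos _).le)
  · have e1 := (em_bd (x := N.Pa + N.K2a / 2 + N.r0 ^ 3 / 3) (by linarith) (by
      have : N.K2a ≤ 147 / 100000 := a.K2a.trans hK2
      norm_num at e3'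
      linarith)).2
    have e2 : exp (-log (K / r)) ≤ exp (-(N.Pa + N.K2a / 2 + N.r0 ^ 3 / 3)) :=
      Real.exp_le_exp.2 (by linarith)
    refine le_trans ?_ oD.r1n
    rw [key]
    have e4 : K * exp (-log (K / r)) ≤ N.Kbn * exp (-log (K / r)) :=
      mul_le_mul_of_nonneg_right h2 (Real.exp_pos _).le
    exact e4.trans (mul_le_mul_of_nonneg_left (e2.trans e1) (by linarith))

end PGn
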